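import Pool.Statements.S09001
import Pool.Agent.Lib.MP_5ca2c7_co.Big
import Pool.Agent.Lib.MP_5ca2c7_co.Reduce
import Pool.Agent.Lib.MP_5ca2c7_co.Small2

set_option autoImplicit false
open Classical
open Pool Pool.MP_5ca2c7_co

namespace Pool.Agent.S09001

/-- For every n ≥ 2 there are r ≥ 1, s ≥ 0 with 2r+s = n such that the double kite DK(r,s) (two K_r joined by a path P_{s+2}) has adjacency gap λ1−λ2 at most that of every connected graph on n vertices. -/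
theorem result :
  ∀ n : ℕ, 2 ≤ n → ∃ r s : ℕ, 1 ≤ r ∧ 2 * r + s = n ∧
    ∀ (hD : ((SimpleGraph.fromRel (fun i j : Fin n =>
          (i.val < r ∧ j.val < r) ∨ (r + s ≤ i.val ∧ r + s ≤ j.val) ∨ i.val + 1 = j.val)).adjMatrix ℝ).IsHermitian)
      (G : SimpleGraph (Fin n)) (hG : (G.adjMatrix ℝ).IsHermitian), G.Connected →
      ∀ a b c d : ℝ,
        (∃ i j : Fin n, i ≠ j ∧ hD.eigenvalues i = a ∧ hD.eigenvalues j = b ∧
          (∀ k, hD.eigenvalues k ≤ a) ∧ (∀ k, k ≠ i → hD.eigenvalues k ≤ b)) →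
        (∃ i j : Fin n, i ≠ j ∧ hG.eigenvalues i = c ∧ hG.eigenvalues j = d ∧
          (∀ k, hG.eigenvalues k ≤ c) ∧ (∀ k, k ≠ i → hG.eigenvalues k ≤ d)) →
        a - b ≤ c - d := by
  intro n hn
  have herm : ∀ r : ℕ, ((SimpleGraph.fromRel (fun i j : Fin n =>
      (i.val < r ∧ j.val < r) ∨ (r + (n - 2 * r) ≤ i.val ∧ r + (n - 2 * r) ≤ j.val) ∨
        i.val + 1 = j.val)).adjMatrix ℝ).IsHermitian := fun r =>
    SimpleGraph.isHermitian_adjMatrix _ _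
  obtain ⟨r, h1, h2, h3⟩ := Lib.MP_5ca2c7_co.choose_min hn (fun r => (herm r).eigenvalues)
  refine ⟨r, n - 2 * r, h1, by omega, fun hD G hG hc a b c d hab hcd => ?_⟩
  obtain ⟨i, j, hij, hi, hj, hle, -⟩ := hcd
  obtain ⟨lam, hl, hDu⟩ := Lib.MP_5ca2c7_co.dumb_of_graph hG hc hij hi hj hle
  have : ∃ r, 1 ≤ r ∧ 2 * r ≤ n ∧ Lib.MP_5ca2c7_co.Prof r (n - 2 * r) (lam - d) := by
    rcases le_or_gt n 10 with h | h
    · exact Lib.MP_5ca2c7_co.small h hDu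
    · exact Lib.MP_5ca2c7_co.big h hDu
  obtain ⟨r', k1, k2, k3⟩ := this
  obtain ⟨a', b', ⟨i', j', -, m1, -, -, m2⟩, m3⟩ := h3 a b hab r' k1 k2
  have := @Lib.MP_5ca2c7_co.dk_gap_le n r' (n - 2 * r') k1 (by omega) _ k3 (_) (herm r') a' b' i'
    m1 m2
  linarith

end Pool.Agent.S09001
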