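import Pool.Statements.S19565
import Pool.Agent.Lib.MP_adb013_pr.Tail
import Pool.Agent.Lib.MP_adb013_pr.Lower
import Pool.Agent.Lib.MP_adb013_pr.Asym

set_option autoImplicit false
open Pool Pool.MP_adb013_pr

namespace Pool.Agent.S19565

open MeasureTheory Filter Topology Pool.Agent.Lib.MP_adb013_pr
open scoped ENNReal

/-- Abstract squeeze: if `Z ≤ A + ε Z`, `A ≤ Z`, `1 ≤ Z < ∞`, the ratio lies in `[1 - ε, 1]`. -/
theorem ratio_bounds {A Z : ℝ≥0∞} {ε : ℝ} (hε : 0 ≤ ε) (hZ : Z ≠ ⊤) (h1 : 1 ≤ Z) (hA : A ≤ Z)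
    (h : Z ≤ A + ENNReal.ofReal ε * Z) :
    1 - ε ≤ A.toReal / Z.toReal ∧ A.toReal / Z.toReal ≤ 1 := by
  have hAt : A ≠ ⊤ := ne_top_of_le_ne_top hZ hA
  have hz1 : (1 : ℝ) ≤ Z.toReal := by
    have := ENNReal.toReal_mono hZ h1
    simpa using this
  have hz0 : (0 : ℝ) < Z.toReal := by linarith
  have h2 : Z.toReal ≤ A.toReal + ε * Z.toReal := by
    have hne : A + ENNReal.ofReal ε * Z ≠ ⊤ :=
      ENNReal.add_ne_top.2 ⟨hAt, ENNReal.mul_ne_top ENNReal.ofReal_ne_top hZ⟩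
    have := ENNReal.toReal_mono hne h
    rwa [ENNReal.toReal_add hAt (ENNReal.mul_ne_top ENNReal.ofReal_ne_top hZ),
      ENNReal.toReal_mul, ENNReal.toReal_ofReal hε] at this
  constructor
  · rw [le_div_iff₀ hz0]; linarith
  · rw [div_le_one hz0]; exact ENNReal.toReal_mono hZ hA

theorem step {d N : ℕ} [NeZero N] {a a' b ε₁ ε₂ : ℝ} (haa : a ≤ a')
    (h₁ : 0 ≤ ε₁) (h₂ : 0 ≤ ε₂)
    (hlow : mu TAdj 0 {ψ : T d N → ℝ | ∀ x, ψ x - ψ 0 < a'} ≤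
      ENNReal.ofReal ε₁ * mu (TAdj (d := d) (N := N)) 0 Set.univ)
    (hup : ∀ x : T d N, mu TAdj 0 {ψ : T d N → ℝ | b ≤ ψ x - ψ 0} ≤
      ENNReal.ofReal ε₂ * mu (TAdj (d := d) (N := N)) 0 Set.univ) :
    1 - (ε₁ + (N : ℝ) ^ d * ε₂) ≤
      (volume {ψ : T d N → ℝ | 0 ≤ ψ 0 ∧ ψ 0 ≤ 1 ∧
        (∀ x : T d N, ∀ i : Fin d, |ψ (x + (Pi.single i 1 : T d N)) - ψ x| ≤ 1) ∧
        a ≤ (⨆ x, ψ x) - ψ 0 ∧ (⨆ x, ψ x) - ψ 0 ≤ b}).toReal /
      (volume {ψ : T d N → ℝ | 0 ≤ ψ 0 ∧ ψ 0 ≤ 1 ∧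
        (∀ x : T d N, ∀ i : Fin d, |ψ (x + (Pi.single i 1 : T d N)) - ψ x| ≤ 1)}).toReal ∧
      (volume {ψ : T d N → ℝ | 0 ≤ ψ 0 ∧ ψ 0 ≤ 1 ∧
        (∀ x : T d N, ∀ i : Fin d, |ψ (x + (Pi.single i 1 : T d N)) - ψ x| ≤ 1) ∧
        a ≤ (⨆ x, ψ x) - ψ 0 ∧ (⨆ x, ψ x) - ψ 0 ≤ b}).toReal /
      (volume {ψ : T d N → ℝ | 0 ≤ ψ 0 ∧ ψ 0 ≤ 1 ∧
        (∀ x : T d N, ∀ i : Fin d, |ψ (x + (Pi.single i 1 : T d N)) - ψ x| ≤ 1)}).toReal ≤ 1 := by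
  set E : Set (T d N → ℝ) := {ψ | a ≤ (⨆ x, ψ x) - ψ 0 ∧ (⨆ x, ψ x) - ψ 0 ≤ b} with hE
  have e1 : volume {ψ : T d N → ℝ | 0 ≤ ψ 0 ∧ ψ 0 ≤ 1 ∧
        (∀ x : T d N, ∀ i : Fin d, |ψ (x + (Pi.single i 1 : T d N)) - ψ x| ≤ 1) ∧
        a ≤ (⨆ x, ψ x) - ψ 0 ∧ (⨆ x, ψ x) - ψ 0 ≤ b} = mu TAdj 0 E := by
    rw [mu_apply]
    refine congrArg volume (Set.ext fun ψ => ?_)
    simp only [Set.mem_ofPred_eq, Pinned, lip_iff_ev, ev, hE, and_assoc]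
  have e2 : volume {ψ : T d N → ℝ | 0 ≤ ψ 0 ∧ ψ 0 ≤ 1 ∧
        (∀ x : T d N, ∀ i : Fin d, |ψ (x + (Pi.single i 1 : T d N)) - ψ x| ≤ 1)} =
      mu (TAdj (d := d) (N := N)) 0 Set.univ := by
    rw [mu_apply]
    refine congrArg volume (Set.ext fun ψ => ?_)
    simp only [Set.mem_ofPred_eq, Pinned, lip_iff_ev, ev, Set.mem_univ, and_true]
  rw [e1, e2]
  set Z := mu (TAdj (d := d) (N := N)) 0 Set.univ with hZ
  refine ratio_bounds (by positivity) mu_univ_ne_top (one_le_mu_univ _ _)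
    (measure_mono (Set.subset_univ _)) ?_
  have hcov : (Set.univ : Set (T d N → ℝ)) ⊆ E ∪ ({ψ : T d N → ℝ | ∀ x, ψ x - ψ 0 < a'} ∪
      ⋃ x : T d N, {ψ : T d N → ℝ | b ≤ ψ x - ψ 0}) := by
    intro ψ _
    obtain ⟨x₀, hx₀⟩ := exists_eq_ciSup_of_finite (f := ψ)
    by_cases hψ : ψ ∈ E
    · exact Or.inl hψ
    · right
      simp only [hE, Set.mem_ofPred_eq, not_and_or, not_le] at hψ
      rcases hψ with h | h
      · left
        intro x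
        have : ψ x ≤ ⨆ x, ψ x := le_ciSup (Set.finite_range ψ).bddAbove x
        linarith
      · right
        refine Set.mem_iUnion.2 ⟨x₀, ?_⟩
        simp only [Set.mem_ofPred_eq]
        linarith
  have hcard : (Fintype.card (T d N) : ℝ) = (N : ℝ) ^ d := by
    simp [ZMod.card]
  calc Z ≤ mu TAdj 0 (E ∪ ({ψ : T d N → ℝ | ∀ x, ψ x - ψ 0 < a'} ∪
        ⋃ x : T d N, {ψ : T d N → ℝ | b ≤ ψ x - ψ 0})) := measure_mono hcov
    _ ≤ mu TAdj 0 E + (mu TAdj 0 {ψ : T d N → ℝ | ∀ x, ψ x - ψ 0 < a'} +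
        ∑ x : T d N, mu TAdj 0 {ψ : T d N → ℝ | b ≤ ψ x - ψ 0}) := by
      refine (measure_union_le _ _).trans ?_
      gcongr
      refine (measure_union_le _ _).trans ?_
      gcongr
      exact measure_iUnion_fintype_le _ _
    _ ≤ mu TAdj 0 E + (ENNReal.ofReal ε₁ * Z + ∑ _x : T d N, ENNReal.ofReal ε₂ * Z) := by
      gcongr with x
      exact hup x
    _ = mu TAdj 0 E + ENNReal.ofReal (ε₁ + (N : ℝ) ^ d * ε₂) * Z := by
      rw [Finset.sum_const, Finset.card_univ, nsmul_eq_mul, ← hcard,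
        ENNReal.ofReal_add h₁ (by positivity), ENNReal.ofReal_mul (by positivity),
        ENNReal.ofReal_natCast, add_mul, mul_assoc]

/-- For every d ≥ 3 there are c, C > 0 such that a uniformly random real 1-Lipschitz function on the d-dim torus of side 2(n+1), pinned at the origin, has maximum between c(log n)^{1/d} and C(log n)^{1/d} with probability tending to 1. -/
theorem result :
    ∀ d : ℕ, 3 ≤ d → ∃ c C : ℝ, 0 < c ∧ 0 < C ∧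
      Filter.Tendsto (fun n : ℕ =>
        (MeasureTheory.volume {ψ : (Fin d → ZMod (2 * n + 2)) → ℝ |
            0 ≤ ψ 0 ∧ ψ 0 ≤ 1 ∧
            (∀ x : Fin d → ZMod (2 * n + 2), ∀ i : Fin d,
              |ψ (x + (Pi.single i 1 : Fin d → ZMod (2 * n + 2))) - ψ x| ≤ 1) ∧
            c * Real.log ((n : ℝ) + 1) ^ ((1 : ℝ) / d) ≤ (⨆ x, ψ x) - ψ 0 ∧
            (⨆ x, ψ x) - ψ 0 ≤ C * Real.log ((n : ℝ) + 1) ^ ((1 : ℝ) / d)}).toReal /
        (MeasureTheory.volume {ψ : (Fin d → ZMod (2 * n + 2)) → ℝ |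
            0 ≤ ψ 0 ∧ ψ 0 ≤ 1 ∧
            (∀ x : Fin d → ZMod (2 * n + 2), ∀ i : Fin d,
              |ψ (x + (Pi.single i 1 : Fin d → ZMod (2 * n + 2))) - ψ x| ≤ 1)}).toReal)
        Filter.atTop (nhds 1) := by
  intro d hd
  have hd1 : 1 ≤ d := by omega
  obtain ⟨c, C, N0, hc, hC, htail⟩ := tail hd
  obtain ⟨K, hK, hKev, hKlim⟩ := asym_upper (C := C) hd1 hc
  obtain ⟨hlev, hllim⟩ := asym_lower (C := C) hd1 hc
  refine ⟨1 / 100, K, by norm_num, hK, ?_⟩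
  have hlim := (hllim.add hKlim).const_sub 1
  rw [add_zero, sub_zero] at hlim
  have hN : ∀ n : ℕ, Even (2 * n + 2) := fun n => ⟨n + 1, by ring⟩
  have hm : ∀ n : ℕ, (2 * n + 1) / (2 * ell d n) * (2 * ell d n) < 2 * n + 2 := fun n =>
    lt_of_le_of_lt (Nat.div_mul_le_self _ _) (by omega)
  have hl : ∀ n : ℕ, 1 / 100 * scl d n ≤ (ell d n : ℝ) / 10 := fun n => by
    have : scl d n / 10 ≤ ell d n := Nat.le_ceil _
    linarith
  have hlN : ∀ n : ℕ, ell d n ≤ 2 * n + 2 → (ell d n : ℝ) / 2 ≤ ((2 * n + 2 : ℕ) : ℝ) :=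
    fun n h => by
      have h4 : (ell d n : ℝ) ≤ ((2 * n + 2 : ℕ) : ℝ) := by exact_mod_cast h
      have h5 : (0 : ℝ) ≤ ell d n := Nat.cast_nonneg _
      linarith
  have key := fun (n : ℕ) (h1 : K * scl d n ≤ ((2 * n + 2 : ℕ) : ℝ))
      (h2 : 1 ≤ ell d n ∧ ell d n ≤ 2 * n + 2) (h3 : N0 ≤ 2 * n + 2) =>
    step (d := d) (N := 2 * n + 2) (a := 1 / 100 * scl d n) (a' := (ell d n : ℝ) / 10)
      (b := K * scl d n) (hl n) (by positivity) (by positivity)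
      (lower hd1 h2.1 (hm n) (by positivity) fun z =>
        htail (2 * n + 2) (hN n) h3 z _ (by positivity) (hlN n h2.2))
      (fun x => htail (2 * n + 2) (hN n) h3 x _ (mul_nonneg hK.le (scl_nonneg d n)) h1)
  refine tendsto_of_tendsto_of_tendsto_of_le_of_le' hlim tendsto_const_nhds ?_ ?_
  · filter_upwards [hKev, hlev, eventually_ge_atTop N0] with n h1 h2 h3
    exact (key n h1 h2 (by omega)).1
  · filter_upwards [hKev, hlev, eventually_ge_atTop N0] with n h1 h2 h3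
    exact (key n h1 h2 (by omega)).2

end Pool.Agent.S19565
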