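import Pool.Statements.S00812
import Pool.Agent.Lib.MP_179850_al.Main

set_option autoImplicit false
open Pool Pool.MP_179850_al

namespace Pool.Agent.S00812

/-- The negation of the preceding statement: For every n ≥ 4, the automorphism group of the free metabelian group of rank n (free group on n generators modulo its second derived subgroup) is finitely presented: a finite-rank free group maps onto it with kernel normally generated by finitely many elements. -/
theorem result :
    ¬ (∀ n : ℕ, 4 ≤ n →
      ∃ (m : ℕ)
        (f : FreeGroup (Fin m) →*
          MulAut (FreeGroup (Fin n) ⧸ derivedSeries (FreeGroup (Fin n)) 2)),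
        Function.Surjective f ∧
          ∃ S : Finset (FreeGroup (Fin m)),
            f.ker = Subgroup.normalClosure (↑S : Set (FreeGroup (Fin m)))) := by
  intro h
  obtain ⟨m, f, hf, S, hS⟩ := h 4 le_rfl
  exact Pool.Agent.Lib.MP_179850_al.not_fp f hf S hS

end Pool.Agent.S00812
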