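import Pool.Statements.S01181
import Pool.Agent.Lib.MP_36fb39_al.FieldTop
import Pool.Agent.Lib.MP_36fb39_al.FinP
import Pool.Agent.Lib.MP_36fb39_al.ZtoField
import Pool.Agent.Lib.MP_36fb39_al.GroupRed

set_option autoImplicit false
open Pool Pool.MP_36fb39_al

namespace Pool.Agent.S01181

theorem result :
    ∀ (G : Type) [Group G], Group.FG G →
      (∃ (Q : Type) (_ : Group Q) (f : G →* Q),
          Function.Surjective f ∧ IsSolvable Q ∧ (∀ K : Subgroup Q, K.FG) ∧
            ∀ x ∈ f.ker, ∀ y ∈ f.ker, x * y = y * x) →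
      ∀ H : Subgroup G, ∃ n : ℕ,
        upperCentralSeries (↥H) n = upperCentralSeries (↥H) (n + 1) := by
  intro G _ hG ⟨Q, _, f, hf, hs, hK, hab⟩ H
  exact Lib.MP_36fb39_al.hall_of_ft
    (Lib.MP_36fb39_al.ft_int
      (Lib.MP_36fb39_al.ft_of_finData ℂ Lib.MP_36fb39_al.finData_complex)
      (fun p _ => Lib.MP_36fb39_al.ft_of_finData (ZMod p) (Lib.MP_36fb39_al.finData_zmod p)))
    G hG Q f hf hs hK hab H

end Pool.Agent.S01181
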