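import Pool.Statements.S01322
import Pool.Agent.Lib.MP_429c3d_al.NgTop

set_option autoImplicit false
open Pool Pool.MP_429c3d_al

namespace Pool.Agent.S01322

/-- The negation of the preceding statement: For every n > 1 and every group G: if the commutator x⁻¹y⁻¹xy always equals the n-fold left-normed Engel commutator [x,y,...,y] (n copies of y), then G is abelian. -/
theorem result :
    ¬ (∀ n : ℕ, 1 < n → ∀ (G : Type) [Group G],
      (∀ x y : G, x⁻¹ * y⁻¹ * x * y = (fun z : G => z⁻¹ * y⁻¹ * z * y)^[n] x) →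
      ∀ a b : G, a * b = b * a) := by
  intro h
  obtain ⟨m, H, _, hm, ⟨a, b, hab⟩, hl⟩ := Pool.Agent.Lib.MP_429c3d_al.Ng.exists_group
  refine hab (h (m + 1) (by omega) H (fun x y => ?_) a b)
  have e : x⁻¹ * y⁻¹ * x * y = (x⁻¹ * y * x)⁻¹ * y := by group
  have hc : IsConj y (x⁻¹ * y * x) := isConj_iff.2 ⟨x⁻¹, by group⟩
  rw [Function.iterate_succ_apply, e, Pool.Agent.Lib.MP_429c3d_al.Ng.iter_cs, hl y _ hc]
  group

end Pool.Agent.S01322
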