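import Pool.Statements.S01339
import Pool.Agent.Lib.MP_44c8f1_al.Basic

set_option autoImplicit false
open Pool Pool.MP_44c8f1_al

namespace Pool.Agent.S01339

/-- Let H ⊆ F1, F2 ⊆ M be formations of finite groups, with H and M saturated (equivalently local). If F1 ∩ F2 = H and the formation generated by F1 ∪ F2 is M, then F1 and F2 are both saturated (local). -/
theorem result :
    ∀ (Form Sat : ((G : Type) → [Group G] → Prop) → Prop),
      (∀ F : (G : Type) → [Group G] → Prop,
        Form F ↔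
          ((∀ (G : Type) [Group G], F G → Finite G) ∧
           (∀ (G K : Type) [Group G] [Group K], Nonempty (G ≃* K) → F G → F K) ∧
           (∀ (G : Type) [Group G] (N : Subgroup G) [N.Normal], F G → F (G ⧸ N)) ∧
           (∀ (G : Type) [Group G] [Finite G] (N L : Subgroup G) [N.Normal] [L.Normal],
              N ⊓ L = ⊥ → F (G ⧸ N) → F (G ⧸ L) → F G))) →
      (∀ F : (G : Type) → [Group G] → Prop,
        Sat F ↔ (∀ (G : Type) [Group G] [Finite G], F (G ⧸ frattini G) → F G)) →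
      ∀ (H M F₁ F₂ : (G : Type) → [Group G] → Prop),
        Form H → Sat H → Form M → Sat M → Form F₁ → Form F₂ →
        (∀ (G : Type) [Group G], H G → F₁ G) →
        (∀ (G : Type) [Group G], H G → F₂ G) →
        (∀ (G : Type) [Group G], F₁ G → M G) →
        (∀ (G : Type) [Group G], F₂ G → M G) →
        (∀ (G : Type) [Group G], F₁ G → F₂ G → H G) →
        (∀ X : (G : Type) → [Group G] → Prop, Form X →
          (∀ (G : Type) [Group G], F₁ G → X G) →
          (∀ (G : Type) [Group G], F₂ G → X G) →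
          (∀ (G : Type) [Group G], M G → X G)) →
        Sat F₁ ∧ Sat F₂ := by
  intro Form Sat hForm hSat H M F₁ F₂ fH sH fM sM f₁ f₂ hH₁ hH₂ h₁M h₂M h₁₂ hjoin
  have hF : ∀ F, Form F ↔ Pool.Agent.Lib.MP_44c8f1_al.IsForm F := by
    intro F
    rw [hForm]
    exact ⟨fun h => ⟨h.1, h.2.1, h.2.2.1, h.2.2.2⟩, fun h => ⟨h.1, h.2, h.3, h.4⟩⟩
  have hS : ∀ F, Sat F ↔ Pool.Agent.Lib.MP_44c8f1_al.IsSat F := hSat
  rw [hF] at fH fM f₁ f₂
  rw [hS] at sH sM
  rw [hS, hS]
  constructor
  · exact Pool.Agent.Lib.MP_44c8f1_al.sat_left fH sH sM f₁ f₂ hH₁ h₁M h₁₂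
      (fun X hX => hjoin X ((hF X).mpr hX))
  · exact Pool.Agent.Lib.MP_44c8f1_al.sat_left fH sH sM f₂ f₁ hH₂ h₂M
      (fun G _ a b => h₁₂ G b a) (fun X hX a b => hjoin X ((hF X).mpr hX) b a)

end Pool.Agent.S01339
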