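import Pool.Statements.S01693
import Pool.Agent.Lib.MP_625934_al.Main
import Pool.Agent.Lib.MP_625934_al.Free

set_option autoImplicit false
open Pool Pool.MP_625934_al

namespace Pool.Agent.S01693

/-- In the free non-unital alternative ring over the integers on three generators, an element is central exactly when it lies both in the nucleus (associative center) and in the ideal generated by all associators. -/
theorem result :
    ∀ c : RingCon (MonoidAlgebra ℤ (FreeMagma (Fin 3))),
      c = ringConGen (fun a b : MonoidAlgebra ℤ (FreeMagma (Fin 3)) =>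
        ∃ x y : MonoidAlgebra ℤ (FreeMagma (Fin 3)),
          (a = (x * x) * y ∧ b = x * (x * y)) ∨ (a = (x * y) * y ∧ b = x * (y * y))) →
      ∀ z : c.Quotient,
        ((∀ x y : c.Quotient, z * x = x * z ∧ (z * x) * y = z * (x * y) ∧
            (x * z) * y = x * (z * y) ∧ (x * y) * z = x * (y * z)) ↔
          ((∀ x y : c.Quotient, (z * x) * y = z * (x * y) ∧
              (x * z) * y = x * (z * y) ∧ (x * y) * z = x * (y * z)) ∧
            ∀ S : AddSubgroup c.Quotient,
              (∀ x y w : c.Quotient, (x * y) * w - x * (y * w) ∈ S) →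
              (∀ a s : c.Quotient, s ∈ S → a * s ∈ S ∧ s * a ∈ S) →
              z ∈ S)) := by
  intro c hc
  obtain rfl : c = Lib.MP_625934_al.cAlt := hc
  have hg := Lib.MP_625934_al.isFree_gF
  intro z
  constructor
  · intro h
    exact ⟨fun x y => (h x y).2, fun S h1 h2 => hg.center_mem z (fun x => (h x x).1) S h1 h2⟩
  · rintro ⟨h1, h2⟩ x y
    refine ⟨?_, h1 x y⟩
    exact hg.comm_of_nuc z (fun a b => sub_eq_zero.2 (h1 a b).1)
      (h2 _ (Lib.MP_625934_al.DD.asc hg.gens hg.alt) (Lib.MP_625934_al.DD.mul hg.gens hg.alt)) x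

end Pool.Agent.S01693
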