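import Pool.Statements.S01704
import Pool.Agent.Lib.MP_631532_al.Final

set_option autoImplicit false
open Pool Pool.MP_631532_al

namespace Pool.Agent.S01704

/-- The negation of the preceding statement: Every polycyclic group (solvable, all subgroups finitely generated) has a finite set of laws such that each of its laws lies in the normal closure of the endomorphic images of that finite set in the free group. -/
theorem result :
    ¬ (∀ (G : Type) [Group G], IsSolvable G → (∀ H : Subgroup G, H.FG) →
      ∃ S : Finset (FreeGroup ℕ),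
        (∀ s ∈ S, ∀ f : ℕ → G, FreeGroup.lift f s = 1) ∧
        ∀ w : FreeGroup ℕ, (∀ f : ℕ → G, FreeGroup.lift f w = 1) →
          w ∈ Subgroup.normalClosure
            {u : FreeGroup ℕ | ∃ s ∈ S, ∃ φ : FreeGroup ℕ →* FreeGroup ℕ, φ s = u}) := by
  intro h
  obtain ⟨S, hS, hw⟩ := h Pool.Agent.Lib.MP_631532_al.GG Pool.Agent.Lib.MP_631532_al.GG_poly.1
    Pool.Agent.Lib.MP_631532_al.GG_poly.2
  obtain ⟨w, h1, h2⟩ := Pool.Agent.Lib.MP_631532_al.not_finitely_based S hS
  exact h2 (hw w h1)

end Pool.Agent.S01704
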