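import Pool.Statements.S01811
import Pool.Agent.Lib.MP_6bd4d3_al.Homology
import Pool.Agent.Lib.MP_6bd4d3_al.Step

set_option autoImplicit false
open Classical
open Pool Pool.MP_6bd4d3_al
open Pool.Agent.Lib.MP_6bd4d3_al

namespace Pool.Agent.S01811

/-- For every free group F of rank at least 2, the inverse limit of the quotients F/F^(n) by its derived series has uncountable second integral homology (Schur multiplier). -/
theorem result :
    ∀ (α : Type), Nontrivial α →
      ∀ H : Subgroup ((n : ℕ) → FreeGroup α ⧸ derivedSeries (FreeGroup α) n),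
        (H : Set ((n : ℕ) → FreeGroup α ⧸ derivedSeries (FreeGroup α) n)) =
          {x | ∀ n : ℕ, ∃ g : FreeGroup α,
              x (n + 1) = (g : FreeGroup α ⧸ derivedSeries (FreeGroup α) (n + 1)) ∧
              x n = (g : FreeGroup α ⧸ derivedSeries (FreeGroup α) n)} →
        ¬ Countable (groupHomology (Rep.trivial ℤ (↥H) ℤ) 2) := by
  intro α hα H hH hc
  obtain ⟨a, b, hab⟩ := exists_pair_ne α
  obtain ⟨n, θ, hn, hgood, hcong, hfar⟩ := exists_family hab
  have hmem : ∀ z : (k : ℕ) → FreeGroup α ⧸ derivedSeries (FreeGroup α) k, z ∈ H ↔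
      ∀ k : ℕ, ∃ g : FreeGroup α,
        z (k + 1) = (g : FreeGroup α ⧸ derivedSeries (FreeGroup α) (k + 1)) ∧
        z k = (g : FreeGroup α ⧸ derivedSeries (FreeGroup α) k) := fun z => by
    rw [← SetLike.mem_coe, hH]; rfl
  have heq : ∀ (k : ℕ) (g g' : FreeGroup α),
      (g : FreeGroup α ⧸ derivedSeries (FreeGroup α) k) = g' ↔
        g * g'⁻¹ ∈ derivedSeries (FreeGroup α) k := fun k g g' => by
    rw [← QuotientGroup.eq_one_iff, QuotientGroup.mk_mul, QuotientGroup.mk_inv, mul_inv_eq_one]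
  have hdown : ∀ z ∈ H, ∀ j k, j ≤ k → ∀ g : FreeGroup α,
      z k = (g : FreeGroup α ⧸ derivedSeries (FreeGroup α) k) →
      z j = (g : FreeGroup α ⧸ derivedSeries (FreeGroup α) j) := by
    intro z hz j k hjk
    induction k, hjk using Nat.le_induction with
    | base => exact fun g h => h
    | succ k hk ih =>
      intro g hg
      obtain ⟨g', h1, h2⟩ := (hmem z).1 hz k
      apply ih
      rw [h2, heq]
      exact derivedSeries_antitone _ (Nat.le_succ k) ((heq _ _ _).1 (h1.symm.trans hg))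
  let pr : ∀ k, H →* FreeGroup α ⧸ derivedSeries (FreeGroup α) k := fun k =>
    (Pi.evalMonoidHom (fun k => FreeGroup α ⧸ derivedSeries (FreeGroup α) k) k).comp H.subtype
  let χ : H →* Multiplicative ℤ :=
    (QuotientGroup.lift (derivedSeries (FreeGroup α) 1) (chi a)
      (fun x hx => chi_derived a hx)).comp (pr 1)
  let Ψ₀ : (ℕ → Bool) → Phi →* ((k : ℕ) → FreeGroup α ⧸ derivedSeries (FreeGroup α) k) :=
    fun ε => MonoidHom.pi fun k =>
      (QuotientGroup.mk' (derivedSeries (FreeGroup α) k)).comp ((psi a b).comp (θ ε k))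
  have hΨ₀ : ∀ ε x, Ψ₀ ε x ∈ H := by
    intro ε x
    rw [hmem]
    intro k
    refine ⟨psi a b (θ ε (k + 1) x), rfl, ?_⟩
    symm
    exact (heq _ _ _).2 (derivedSeries_antitone _ (hn k).le (hcong ε k (k + 1) (Nat.le_succ k) x))
  let Ψ : (ℕ → Bool) → Phi →* H := fun ε => (Ψ₀ ε).codRestrict H (hΨ₀ ε)
  have hχΨ : ∀ ε x, χ (Ψ ε x) = chi8 x := by
    intro ε x
    obtain ⟨m, hm⟩ := hgood ε 1
    change ((chi a).comp (psi a b)) (θ ε 1 x) = _
    rw [chi_psi hab]
    exact DFunLike.congr_fun hm.2.1 x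
  have hrel : ∀ ε, Ψ ε (rel FreeGroup.of) = 1 := by
    intro ε
    apply Subtype.ext
    funext k
    obtain ⟨m, hm⟩ := hgood ε k
    change QuotientGroup.mk' _ (psi a b (θ ε k (rel FreeGroup.of))) = 1
    rw [hm.1, psi_rel, map_one]
  have hcount := countable_classes χ (Ψ (fun _ => true) (FreeGroup.of 0))
    (by rw [hχΨ]; simp [chi8]) hc
  have hker : ∀ ε, Ψ ε (FreeGroup.of 1) ∈ χ.ker := fun ε => by
    rw [MonoidHom.mem_ker, hχΨ]; simp [chi8]
  let cls : (ℕ → Bool) → Abelianization χ.ker := fun δ =>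
    Abelianization.of ⟨_, hker fun k => δ (Nat.unpair k).1⟩
  have hinj : Function.Injective cls := by
    have key : ∀ δ δ' i, δ i = true → δ' i = false → cls δ ≠ cls δ' := by
      intro δ δ' i h1 h2 h
      let ε : ℕ → Bool := fun k => δ (Nat.unpair k).1
      let ε' : ℕ → Bool := fun k => δ' (Nat.unpair k).1
      have h3 : (⟨_, hker ε⟩ : χ.ker) * (⟨_, hker ε'⟩ : χ.ker)⁻¹ ∈ commutator χ.ker := by
        rw [← Abelianization.ker_of, MonoidHom.mem_ker, map_mul, map_inv, mul_inv_eq_one]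
        exact h
      obtain ⟨m, hm⟩ := CL.of_mem_commutator (K := ⊤) h3
      let k := Nat.pair i m
      let π := QuotientGroup.mk' (derivedSeries (FreeGroup α) (n (k + 1)))
      have h4 := (hm.map (K' := (chi a).ker.map π) ((pr (n (k + 1))).comp χ.ker.subtype)
        (fun z _ => by
          obtain ⟨g, hg⟩ := QuotientGroup.mk_surjective (pr (n (k + 1)) z)
          refine ⟨g, ?_, hg⟩
          have h5 := hdown z.1.1 z.1.2 1 (n (k + 1)) (by have := hn (k + 1); omega) g hg.symm
          have h6 : χ z = 1 := z.2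
          change QuotientGroup.lift (derivedSeries (FreeGroup α) 1) (chi a)
            (fun x hx => chi_derived a hx) (z.1.1 1) = 1 at h6
          rw [h5] at h6
          exact h6)).mono_len (Nat.right_le_pair i m)
      obtain ⟨x, hx, hx'⟩ := CL.lift (K := (chi a).ker) π (fun y hy => hy) h4
      refine hfar ε ε' k (by simp [ε, k, h1]) (by simp [ε', k, h2]) x hx ?_
      rw [← heq]
      change π _ = π x
      rw [hx', map_mul, map_inv, map_mul, map_inv]
      have h7 : ∀ e : ℕ → Bool, π (psi a b (θ e (k + 1) (FreeGroup.of 1))) =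
          π (psi a b (θ e (n (k + 1)) (FreeGroup.of 1))) := fun e =>
        ((heq _ _ _).2 (hcong e (k + 1) (n (k + 1)) (hn _).le _)).symm
      rw [h7, h7]
      rfl
    intro δ δ' h
    funext i
    cases h1 : δ i <;> cases h2 : δ' i
    · rfl
    · exact absurd h.symm (key δ' δ i h2 h1)
    · exact absurd h (key δ δ' i h1 h2)
    · rfl
  have hall : (Set.univ : Set (ℕ → Bool)).Countable := by
    refine (hcount.preimage_of_injOn hinj.injOn).mono fun δ _ => ?_
    let ε : ℕ → Bool := fun k => δ (Nat.unpair k).1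
    have hr := hrel ε
    rw [Pool.Agent.Lib.MP_6bd4d3_al.map_rel] at hr
    refine ⟨Ψ ε (FreeGroup.of 0), ⟨_, hker ε⟩, Ψ ε (FreeGroup.of 2), Ψ ε (FreeGroup.of 3),
      Ψ ε (FreeGroup.of 4), Ψ ε (FreeGroup.of 5), Ψ ε (FreeGroup.of 6), Ψ ε (FreeGroup.of 7),
      ?_, ?_, ?_, ?_, ?_, ?_, ?_, hr, rfl⟩ <;> (rw [hχΨ]; simp [chi8])
  have hcb : Countable (ℕ → Bool) := Set.countable_univ_iff.1 hall
  obtain ⟨f, hf⟩ := exists_surjective_nat (ℕ → Bool)
  obtain ⟨j, hj⟩ := hf fun i => !f i i
  have := congrFun hj j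
  simp at this

end Pool.Agent.S01811
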