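import Pool.Statements.S01870
import Pool.Agent.Lib.MP_70593a_al.Basic

set_option autoImplicit false
open Pool Pool.MP_70593a_al

namespace Pool.Agent.S01870

open Pool.Agent.Lib.MP_70593a_al in
/-- The negation of the loop lemma for near-unanimity operations on infinite relations. -/
theorem result :
    ¬ (∀ (A : Type) (R : A → A → Prop) (S : Finset (A × A)),
      (∀ p ∈ S, R p.1 p.2) →
      (∀ p ∈ S, (∃ q ∈ S, q.2 = p.1) ∧ (∃ q ∈ S, q.1 = p.2)) →
      (∃ (k : ℕ) (v : ℕ → A) (e : ℕ → ℤ), v k = v 0 ∧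
        (∀ i < k, (e i = 1 ∧ (v i, v (i + 1)) ∈ S) ∨ (e i = -1 ∧ (v (i + 1), v i) ∈ S)) ∧
        ∑ i ∈ Finset.range k, e i = 1) →
      ∀ (n : ℕ) (f : (Fin n → A) → A), 3 ≤ n →
        (∀ (x y : A) (i : Fin n), f (Function.update (fun _ => x) i y) = x) →
        (∀ (x y : Fin n → A), (∀ i, R (x i) (y i)) → R (f x) (f y)) →
        ∃ a : A, R a a) := by
  classical
  intro H
  have : Countable D := D_countable.to_subtype
  obtain ⟨g, hmono, hnu, hcol⟩ := exists_op col col_dense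
  obtain ⟨u, w, huw⟩ := D_lt
  obtain ⟨b, hub, hbw, hb⟩ := col_dense false u w huw
  obtain ⟨a, -, hab, ha⟩ := col_dense true u b hub
  obtain ⟨d, hbd, -, hd⟩ := col_dense true b w hbw
  let A : Type := {p : D × D // col p.1 = !col p.2}
  let R : A → A → Prop := fun z t => z.1.1 ≤ t.1.2 ∧ z.1.2 ≤ t.1.1
  let x : A := ⟨(a, b), by simp [ha, hb]⟩
  let x' : A := ⟨(b, a), by simp [ha, hb]⟩
  let y : A := ⟨(b, d), by simp [hd, hb]⟩
  let y' : A := ⟨(d, b), by simp [hd, hb]⟩
  let f : (Fin 5 → A) → A := fun z =>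
    ⟨(g fun i => (z i).1.1, g fun i => (z i).1.2), by
      show col (g _) = !col (g _)
      rw [hcol, hcol, ← maj_not]
      congr 1
      funext j
      exact (z j).2⟩
  let S : Finset (A × A) := {(x, x'), (x', x), (y, y'), (y', y), (x, y), (x, y')}
  have hS : ∀ p ∈ S, p = (x, x') ∨ p = (x', x) ∨ p = (y, y') ∨ p = (y', y) ∨ p = (x, y) ∨
      p = (x, y') := by
    intro p hp
    simpa only [S, Finset.mem_insert, Finset.mem_singleton] using hp
  have m1 : (x, x') ∈ S := by simp [S]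
  have m2 : (x', x) ∈ S := by simp [S]
  have m3 : (y, y') ∈ S := by simp [S]
  have m4 : (y', y) ∈ S := by simp [S]
  have m5 : (x, y) ∈ S := by simp [S]
  have m6 : (x, y') ∈ S := by simp [S]
  suffices key : ∃ z : A, R z z by
    obtain ⟨z, hz1, hz2⟩ := key
    have h := z.2
    rw [le_antisymm hz1 hz2] at h
    revert h
    cases col z.1.2 <;> simp
  refine H A R S ?_ ?_ ?_ 5 f (by norm_num) ?_ ?_
  · intro p hp
    rcases hS p hp with rfl | rfl | rfl | rfl | rfl | rfl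
    · exact ⟨le_rfl, le_rfl⟩
    · exact ⟨le_rfl, le_rfl⟩
    · exact ⟨le_rfl, le_rfl⟩
    · exact ⟨le_rfl, le_rfl⟩
    · exact ⟨(hab.trans hbd).le, le_rfl⟩
    · exact ⟨hab.le, hbd.le⟩
  · intro p hp
    rcases hS p hp with rfl | rfl | rfl | rfl | rfl | rfl
    · exact ⟨⟨_, m2, rfl⟩, ⟨_, m2, rfl⟩⟩
    · exact ⟨⟨_, m1, rfl⟩, ⟨_, m1, rfl⟩⟩
    · exact ⟨⟨_, m4, rfl⟩, ⟨_, m4, rfl⟩⟩
    · exact ⟨⟨_, m3, rfl⟩, ⟨_, m3, rfl⟩⟩
    · exact ⟨⟨_, m2, rfl⟩, ⟨_, m3, rfl⟩⟩
    · exact ⟨⟨_, m2, rfl⟩, ⟨_, m4, rfl⟩⟩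
  · refine ⟨3, fun i => if i = 1 then y else if i = 2 then y' else x,
      fun i => if i = 2 then -1 else 1, by simp, ?_, by simp [Finset.sum_range_succ]⟩
    intro i hi
    interval_cases i
    · exact Or.inl ⟨by simp, by simpa using m5⟩
    · exact Or.inl ⟨by simp, by simpa using m3⟩
    · exact Or.inr ⟨by simp, by simpa using m6⟩
  · intro p q i
    apply Subtype.ext
    apply Prod.ext
    · show g _ = _
      rw [← hnu p.1.1 q.1.1 i]
      congr 1
      funext j
      by_cases hj : j = i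
      · subst hj
        simp
      · simp [Function.update_of_ne hj]
    · show g _ = _
      rw [← hnu p.1.2 q.1.2 i]
      congr 1
      funext j
      by_cases hj : j = i
      · subst hj
        simp
      · simp [Function.update_of_ne hj]
  · intro p q h
    exact ⟨hmono fun i => (h i).1, hmono fun i => (h i).2⟩

end Pool.Agent.S01870
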