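import Pool.Statements.S02076
import Pool.Agent.Lib.MP_7f5b60_al.NotFibered

/-!
Counterexample. For an integer q let
G(q) = < y, z, c, s | [c,y], [c,z], s^-1 c s = [y,z] c^q >.
* H = G(1) is the mapping torus F(y,z,s) x| Z of the automorphism y -> y, z -> z, s -> s [y,z]
  (`HH`, file Groups).
* G = G(2) (`GG`) is bi-Lipschitz equivalent to H: a bounded cocycle on F(y,z) whose sum along
  every translate of the loop [y,z] is -1 (lift of an SL(2,Z) action to the universal cover of
  the circle) shears F(y,z) x Z; the twisted right actions of G on H and of H on G give mutually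
  inverse 2-Lipschitz bijections (file QI).
* For every finite-index subgroup K of G and every homomorphism from K to Z, a transfer argument
  shows that a power of c is killed, so the kernel contains Z^2 and is not free (file NotFibered).
-/

set_option autoImplicit false
open Pool Pool.MP_7f5b60_al

namespace Pool.Agent.S02076

/-- The negation of the preceding statement: If a group G is quasi-isometric, via word metrics of finite generating sets, to a group with a surjection onto Z whose kernel is finitely generated free, then G has a finite-index subgroup that also maps onto Z with finitely generated free kernel. -/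
theorem result :
    ¬ (∀ (G H : Type) [Group G] [Group H],
      (∃ φ : H →* Multiplicative ℤ, Function.Surjective φ ∧
          IsFreeGroup ↥φ.ker ∧ Group.FG ↥φ.ker) →
      (∃ (S : Finset G) (T : Finset H) (f : G → H) (L C : ℕ),
          Subgroup.closure (S : Set G) = ⊤ ∧ Subgroup.closure (T : Set H) = ⊤ ∧
          (∀ a b : G, ∀ n : ℕ,
            (∃ l : List G, l.length ≤ n ∧ (∀ x ∈ l, x ∈ S ∨ x⁻¹ ∈ S) ∧ l.prod = a⁻¹ * b) →
            ∃ l : List H, l.length ≤ L * n + C ∧ (∀ x ∈ l, x ∈ T ∨ x⁻¹ ∈ T) ∧
              l.prod = (f a)⁻¹ * f b) ∧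
          (∀ a b : G, ∀ n : ℕ,
            (∃ l : List H, l.length ≤ n ∧ (∀ x ∈ l, x ∈ T ∨ x⁻¹ ∈ T) ∧
              l.prod = (f a)⁻¹ * f b) →
            ∃ l : List G, l.length ≤ L * n + C ∧ (∀ x ∈ l, x ∈ S ∨ x⁻¹ ∈ S) ∧
              l.prod = a⁻¹ * b) ∧
          (∀ y : H, ∃ x : G, ∃ l : List H, l.length ≤ C ∧ (∀ z ∈ l, z ∈ T ∨ z⁻¹ ∈ T) ∧
              l.prod = (f x)⁻¹ * y)) →
      ∃ K : Subgroup G, K.FiniteIndex ∧
        ∃ ψ : ↥K →* Multiplicative ℤ, Function.Surjective ψ ∧
          IsFreeGroup ↥ψ.ker ∧ Group.FG ↥ψ.ker) := by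
  intro h
  open Pool.Agent.Lib.MP_7f5b60_al in
  obtain ⟨K, hK, ψ, -, hfree, -⟩ := h GG HH HH_free_by_cyclic
    ⟨SG, SH, ff, 2, 0, closure_SG, closure_SH,
      fun a b n hab => lip_ff a b n hab,
      fun a b n hab => by
        have := lip_ff' (ff a) (ff b) n hab
        rw [ff'_ff, ff'_ff] at this
        exact this,
      fun y => ⟨ff' y, [], by simp, by simp, by simp [ff_ff']⟩⟩
  exact Pool.Agent.Lib.MP_7f5b60_al.GG_not_virtually K ψ hfree

end Pool.Agent.S02076
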