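import Pool.Statements.S02080
import Pool.Agent.Lib.MP_7ffbdd_al.Depth

set_option autoImplicit false
open Pool Pool.MP_7ffbdd_al

namespace Pool.Agent.S02080

/-- The negation of the preceding statement: For every nonzero monomial ideal I in K[x1..xn], any I-regular sequence of length d in the maximal ideal gives a Stanley decomposition of I (a partition of its monomials into cones u·K[Z]) with every ∣Z∣ at least d, i.e. sdepth I ≥ depth I. -/
theorem result :
    ¬ (∀ (n : ℕ) (K : Type) [Field K] (I : Ideal (MvPolynomial (Fin n) K)),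
      (∃ s : Set (Fin n →₀ ℕ),
        I = Ideal.span ((fun a => MvPolynomial.monomial a (1 : K)) '' s)) →
      I ≠ ⊥ →
      ∀ rs : List (MvPolynomial (Fin n) K),
        (∀ r ∈ rs, MvPolynomial.constantCoeff r = 0) →
        RingTheory.Sequence.IsRegular (↥I) rs →
        ∃ D : Finset ((Fin n →₀ ℕ) × Finset (Fin n)),
          (∀ p ∈ D, rs.length ≤ p.2.card) ∧
          (∀ p ∈ D, ∀ b : Fin n →₀ ℕ, b.support ⊆ p.2 →
            MvPolynomial.monomial (p.1 + b) (1 : K) ∈ I) ∧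
          ∀ a : Fin n →₀ ℕ, MvPolynomial.monomial a (1 : K) ∈ I →
            ∃! p, p ∈ D ∧ ∃ b : Fin n →₀ ℕ, b.support ⊆ p.2 ∧ a = p.1 + b) := by
  intro H
  classical
  let τ := Fin 6 × (Fin 3 → Fin 193)
  let n := Fintype.card τ
  let e : τ ↪ Fin n := (Fintype.equivFin τ).toEmbedding
  have hG := Pool.Agent.Lib.MP_7ffbdd_al.glued_phi0 193 e
  have hL := hG.ler
  have hne : Pool.Agent.Lib.MP_7ffbdd_al.cxIdeal ℚ (Pool.Agent.Lib.MP_7ffbdd_al.XG
      (fun ω => (Pool.Agent.Lib.MP_7ffbdd_al.phi0 193 ω).trans e)) ≠ ⊥ := by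
    intro h0
    have hm := (Pool.Agent.Lib.MP_7ffbdd_al.monomial_mem_cxIdeal ℚ hL.isLowerSet
      (a := Pool.Agent.Lib.MP_7ffbdd_al.coInd ∅)).2 (by
        rw [Pool.Agent.Lib.MP_7ffbdd_al.coInd_support]
        exact Set.mem_iUnion.2 ⟨0, ∅, by decide +kernel, rfl⟩)
    rw [h0, Ideal.mem_bot] at hm
    simp at hm
  obtain ⟨rs, h1, h2, h3⟩ := Pool.Agent.Lib.MP_7ffbdd_al.exists_regular ℚ hL hne
  obtain ⟨D, d1, d2, d3⟩ := H n ℚ _ ⟨_, rfl⟩ hne rs h2 h3
  obtain ⟨b, t, k1, k2⟩ := Pool.Agent.Lib.MP_7ffbdd_al.intervals_of_decomposition ℚ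
    hL.isLowerSet 2 D (fun p hp => h1 ▸ d1 p hp) d2 d3
  exact hG.no_partition (by norm_num) b t k1 k2

end Pool.Agent.S02080
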