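import Pool.Statements.S02451
import Pool.Agent.Lib.MP_9ac97d_al.XMain

set_option autoImplicit false
open Pool Pool.MP_9ac97d_al

namespace Pool.Agent.S02451

/-- For every n and a, b in Out(F_n): if ⟨a,b⟩ has exponential growth w.r.t. {a,b}, then some c>1 makes every word-metric ball of radius k, for every finite generating set of ⟨a,b⟩, have at least c^k elements. -/
theorem result :
    ∀ (n : ℕ)
      (a b : MulAut (FreeGroup (Fin n)) ⧸
        Subgroup.normalClosure
          (Set.range (MulAut.conj : FreeGroup (Fin n) →* MulAut (FreeGroup (Fin n))))),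
      (∃ c : ℝ, 1 < c ∧ ∀ k : ℕ,
        c ^ k ≤ ((Set.ncard
          {g : MulAut (FreeGroup (Fin n)) ⧸
              Subgroup.normalClosure
                (Set.range (MulAut.conj : FreeGroup (Fin n) →* MulAut (FreeGroup (Fin n)))) |
            ∃ l : List (MulAut (FreeGroup (Fin n)) ⧸
                Subgroup.normalClosure
                  (Set.range (MulAut.conj : FreeGroup (Fin n) →* MulAut (FreeGroup (Fin n))))),
              l.length ≤ k ∧ (∀ x ∈ l, (x = a ∨ x = b) ∨ (x⁻¹ = a ∨ x⁻¹ = b)) ∧
              l.prod = g} : ℕ) : ℝ)) →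
      ∃ c : ℝ, 1 < c ∧
        ∀ S : Set (MulAut (FreeGroup (Fin n)) ⧸
            Subgroup.normalClosure
              (Set.range (MulAut.conj : FreeGroup (Fin n) →* MulAut (FreeGroup (Fin n))))),
          S.Finite →
          Subgroup.closure S = Subgroup.closure ({a, b} : Set (MulAut (FreeGroup (Fin n)) ⧸
            Subgroup.normalClosure
              (Set.range (MulAut.conj : FreeGroup (Fin n) →* MulAut (FreeGroup (Fin n)))))) →
          ∀ k : ℕ,
            c ^ k ≤ ((Set.ncard
              {g : MulAut (FreeGroup (Fin n)) ⧸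
                  Subgroup.normalClosure
                    (Set.range (MulAut.conj : FreeGroup (Fin n) →* MulAut (FreeGroup (Fin n)))) |
                ∃ l : List (MulAut (FreeGroup (Fin n)) ⧸
                    Subgroup.normalClosure
                      (Set.range (MulAut.conj : FreeGroup (Fin n) →* MulAut (FreeGroup (Fin n))))),
                  l.length ≤ k ∧ (∀ x ∈ l, x ∈ S ∨ x⁻¹ ∈ S) ∧ l.prod = g} : ℕ) : ℝ) := by
  intro n a b hexp
  refine Pool.Agent.Lib.MP_9ac97d_al.ueg_of (T := {a, b}) (Set.toFinite _)
    (Pool.Agent.Lib.MP_9ac97d_al.ff_bot_of_nf n _) ?_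
  obtain ⟨c, hc, h⟩ := hexp
  exact ⟨c, hc, h⟩

end Pool.Agent.S02451
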