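import Pool.Statements.S02559
import Pool.Agent.Lib.MP_a2eab4_al.ReLim

set_option autoImplicit false
open Pool Pool.MP_a2eab4_al

namespace Pool.Agent.S02559

/-- There is a group G in which the set of elements a such that, for some n, the n-fold commutator [a,g,...,g] is trivial for every g is not a subgroup. -/
theorem result :
    ∃ (G : Type) (_ : Group G),
      ¬ ∃ H : Subgroup G,
        (H : Set G) = {a : G | ∃ n : ℕ, ∀ g : G,
          (fun x : G => x⁻¹ * g⁻¹ * x * g)^[n] a = 1} := by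
  obtain ⟨G, _, a, b, n, ha, hb, g, h⟩ := Pool.Agent.Lib.MP_a2eab4_al.Re.engel_example
  refine ⟨G, inferInstance, fun ⟨H, hH⟩ => ?_⟩
  have h1 : a ∈ (H : Set G) := by
    rw [hH]
    exact ⟨n, ha⟩
  have h2 : b ∈ (H : Set G) := by
    rw [hH]
    exact ⟨n, hb⟩
  have h3 : a * b ∈ (H : Set G) := H.mul_mem h1 h2
  rw [hH] at h3
  obtain ⟨m, hm⟩ := h3
  exact h m (hm g)

end Pool.Agent.S02559
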