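import Pool.Statements.S03150
import Pool.Agent.Lib.MP_d25c28_al.Cube

set_option autoImplicit false
open Pool Pool.MP_d25c28_al

namespace Pool.Agent.S03150

/-- The negation of the preceding statement: For every e there is a bound B such that every almost symmetric numerical semigroup with e minimal generators has at most B pseudo-Frobenius numbers, i.e. type at most B. -/
theorem result :
    ¬ (∀ e : ℕ, ∃ B : ℕ, ∀ S : Set ℕ,
      0 ∈ S →
      (∀ a ∈ S, ∀ b ∈ S, a + b ∈ S) →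
      Sᶜ.Finite →
      (∀ f : ℕ, f ∉ S → (∀ y : ℕ, f < y → y ∈ S) →
        ∀ x : ℕ, x ≤ f → x ∉ S → f - x ∉ S →
          ∀ s ∈ S, s ≠ 0 → x + s ∈ S) →
      {s : ℕ | s ∈ S ∧ s ≠ 0 ∧ ¬ ∃ a ∈ S, ∃ b ∈ S, a ≠ 0 ∧ b ≠ 0 ∧ a + b = s}.ncard = e →
      {x : ℕ | x ∉ S ∧ ∀ s ∈ S, s ≠ 0 → x + s ∈ S}.ncard ≤ B) := by
  intro H
  choose B hB using H
  have key : ∀ n : ℕ, 1 ≤ n → n ≤ ∑ e ∈ Finset.range 9, B e := by
    intro n hn
    have hN : (1 : ℤ) ≤ n := by exact_mod_cast hn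
    have h1 := hB _ (Pool.Agent.Lib.MP_d25c28_al.SG n)
      (by simpa [Pool.Agent.Lib.MP_d25c28_al.SG] using Pool.Agent.Lib.MP_d25c28_al.inS_zero n)
      (fun a ha b hb => by
        have := Pool.Agent.Lib.MP_d25c28_al.inS_add ha hb
        simpa [Pool.Agent.Lib.MP_d25c28_al.SG] using this)
      (Pool.Agent.Lib.MP_d25c28_al.SG_compl_finite hN)
      (Pool.Agent.Lib.MP_d25c28_al.SG_almost hN) rfl
    have h2 := Pool.Agent.Lib.MP_d25c28_al.SG_type n hn
    have h3 := Pool.Agent.Lib.MP_d25c28_al.SG_gens hN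
    exact h2.trans (h1.trans (Finset.single_le_sum (f := B) (fun _ _ => Nat.zero_le _)
      (Finset.mem_range.mpr (by omega))))
  have := key (∑ e ∈ Finset.range 9, B e + 1) (by omega)
  omega

end Pool.Agent.S03150
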