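import Pool.Statements.S03213
import Pool.Agent.Lib.MP_d87150_al.Final

set_option autoImplicit false
open Pool Pool.MP_d87150_al

namespace Pool.Agent.S03213

/-- For every ordered abelian group Λ, every finitely generated group with a free Lyndon length function into Λ (equivalently, acting freely on a Λ-tree) is isomorphic to a group with finitely many generators and finitely many relators. -/
theorem result :
    ∀ (Λ : Type) [AddCommGroup Λ] [LinearOrder Λ] [IsOrderedAddMonoid Λ]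
      (G : Type) [Group G] [Group.FG G],
      (∃ ℓ : G → Λ, ℓ 1 = 0 ∧ (∀ g : G, ℓ g⁻¹ = ℓ g) ∧
        (∀ g f h : G, min (ℓ g + ℓ h - ℓ (g⁻¹ * h)) (ℓ f + ℓ h - ℓ (f⁻¹ * h))
            ≤ ℓ g + ℓ f - ℓ (g⁻¹ * f)) ∧
        (∀ g f : G, ∃ c : Λ, c + c = ℓ g + ℓ f - ℓ (g⁻¹ * f)) ∧
        (∀ g : G, g ≠ 1 → ℓ g < ℓ (g * g))) →
      ∃ (n : ℕ) (rels : Finset (FreeGroup (Fin n))),
        Nonempty (G ≃* PresentedGroup (rels : Set (FreeGroup (Fin n)))) := by
  intro Λ _ _ _ G _ _ h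
  obtain ⟨ℓ, h1, h2, h3, h4, h5⟩ := h
  exact Pool.Agent.Lib.MP_d87150_al.final Λ G ℓ h1 h2 h3 h4 h5

end Pool.Agent.S03213
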