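import Pool.Statements.S03842
import Pool.Agent.Lib.MP_102662_an.Main

set_option autoImplicit false
open Pool Pool.MP_102662_an

namespace Pool.Agent.S03842

/-- The negation of the preceding statement: There is a function g that is 1/2-Hölder on [0,1) and equals log r(θ) + B(θ) at every irrational Brjuno θ in [0,1). Here r is Yoccoz's minimal linearization radius over univalent maps of the unit disk, and B is the Brjuno function. -/
theorem result :
    ¬ (∃ g : ℝ → ℝ, ∃ C : ℝ,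
    (∀ x ∈ Set.Ico (0:ℝ) 1, ∀ y ∈ Set.Ico (0:ℝ) 1,
        |g x - g y| ≤ C * Real.sqrt |x - y|) ∧
    ∀ θ ∈ Set.Ico (0:ℝ) 1, Irrational θ →
      Summable (fun n : ℕ =>
        (∏ j ∈ Finset.range n, (fun x : ℝ => Int.fract (1 / x))^[j] θ) *
          Real.log (1 / (fun x : ℝ => Int.fract (1 / x))^[n] θ)) →
      g θ =
        Real.log
          (⨅ f : ℂ → ℂ,
            ⨅ (_ : DifferentiableOn ℂ f (Metric.ball 0 1) ∧ Set.InjOn f (Metric.ball 0 1) ∧
                f 0 = 0 ∧ deriv f 0 = Complex.exp (2 * Real.pi * Complex.I * θ)),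
              ⨅ a : ℕ → ℂ,
                ⨅ (_ : a 0 = 0 ∧ a 1 = 1 ∧
                    ∀ n : ℕ,
                      ∑ k ∈ Finset.range (n + 1),
                          iteratedDeriv k f 0 / (k.factorial : ℂ) *
                            ∑ t ∈ Finset.Nat.antidiagonalTuple k n, ∏ i, a (t i)
                        = Complex.exp (2 * Real.pi * Complex.I * θ) ^ n * a n),
                  ⨆ (ρ : NNReal) (_ : ∃ D : ℝ, ∀ n : ℕ, ‖a n‖ * (ρ : ℝ) ^ n ≤ D),
                    (ρ : ENNReal)).toReal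
        + ∑' n : ℕ,
            (∏ j ∈ Finset.range n, (fun x : ℝ => Int.fract (1 / x))^[j] θ) *
              Real.log (1 / (fun x : ℝ => Int.fract (1 / x))^[n] θ)) := by
  rintro ⟨g, CH, hH, hg⟩
  obtain ⟨C, hC, hmain⟩ := Pool.Agent.Lib.MP_102662_an.main_pair
  obtain ⟨A, hA⟩ := exists_nat_gt (3 * C + |CH| * Real.sqrt C)
  obtain ⟨θ', θ'', β, ρ, h1, h2, hi1, hi2, hs1, hs2, hβ, hρ, hd, hB, hlo, hfin, hpos, hup⟩ :=
    hmain A
  have e1 : g θ' = Real.log (Pool.Agent.Lib.MP_102662_an.rr θ').toReal +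
      ∑' n, Pool.Agent.Lib.MP_102662_an.bterm θ' n := hg θ' h1 hi1 hs1
  have e2 : g θ'' = Real.log (Pool.Agent.Lib.MP_102662_an.rr θ'').toReal +
      ∑' n, Pool.Agent.Lib.MP_102662_an.bterm θ'' n := hg θ'' h2 hi2 hs2
  have l1 : Real.log ρ - C * β ≤ Real.log (Pool.Agent.Lib.MP_102662_an.rr θ').toReal := by
    have hp : 0 < ρ * Real.exp (-(C * β)) := by positivity
    have := (ENNReal.ofReal_le_iff_le_toReal hfin.ne).1 hlo
    have h3 := Real.log_le_log hp this
    rw [Real.log_mul hρ.ne' (Real.exp_pos _).ne', Real.log_exp] at h3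
    linarith
  have l2 : Real.log (Pool.Agent.Lib.MP_102662_an.rr θ'').toReal ≤ Real.log ρ + C * β := by
    have hne : Pool.Agent.Lib.MP_102662_an.rr θ'' ≠ ⊤ := ne_top_of_le_ne_top ENNReal.ofReal_ne_top hup
    have hp : 0 < (Pool.Agent.Lib.MP_102662_an.rr θ'').toReal := ENNReal.toReal_pos hpos.ne' hne
    have h4 := ENNReal.toReal_le_of_le_ofReal (by positivity) hup
    have h3 := Real.log_le_log hp h4
    rw [Real.log_mul hρ.ne' (Real.exp_pos _).ne', Real.log_exp] at h3
    linarith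
  have h5 := hH θ' h1 θ'' h2
  have h6 : Real.sqrt |θ' - θ''| ≤ Real.sqrt C * β := by
    have : Real.sqrt C * β = Real.sqrt (C * β ^ 2) := by
      rw [Real.sqrt_mul (by linarith), Real.sqrt_sq hβ.le]
    rw [this]
    exact Real.sqrt_le_sqrt hd
  have h7 : CH * Real.sqrt |θ' - θ''| ≤ |CH| * (Real.sqrt C * β) :=
    (mul_le_mul_of_nonneg_right (le_abs_self CH) (Real.sqrt_nonneg _)).trans
      (mul_le_mul_of_nonneg_left h6 (abs_nonneg _))
  have h8 : g θ' - g θ'' ≤ |CH| * (Real.sqrt C * β) := (le_abs_self _).trans (h5.trans h7)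
  have h9 : β * ((A : ℝ) - 3 * C - |CH| * Real.sqrt C) ≤ 0 := by nlinarith
  have h10 : 0 < β * ((A : ℝ) - 3 * C - |CH| * Real.sqrt C) := mul_pos hβ (by linarith)
  linarith

end Pool.Agent.S03842
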