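import Pool.Statements.S04878
import Pool.Agent.Lib.MP_64d6f1_an.Final

set_option autoImplicit false
open scoped InnerProductSpace
open Pool Pool.MP_64d6f1_an

namespace Pool.Agent.S04878

/-- The negation of the preceding statement: In any tracial von Neumann algebra, unitaries of the ultrapower that are k-independent (centered alternating words of length 1..k have trace 0) have unitary lifts that are (k-1)-independent at every index. -/
theorem result :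
    ¬ (∀ (H : Type) [NormedAddCommGroup H] [InnerProductSpace ℂ H] [CompleteSpace H]
    (N : VonNeumannAlgebra H) (ξ : ℕ → H) (τ : (H →L[ℂ] H) → ℂ),
    Summable (fun i => ‖ξ i‖ ^ 2) →
    (∀ x : H →L[ℂ] H, τ x = ∑' i, ⟪ξ i, x (ξ i)⟫_ℂ) →
    τ (1 : H →L[ℂ] H) = 1 →
    (∀ x ∈ N, ∀ y ∈ N, τ (x * y) = τ (y * x)) →
    (∀ x ∈ N, τ (star x * x) = 0 → x = 0) →
    ∀ (𝒰 : Ultrafilter ℕ), (↑𝒰 : Filter ℕ) ≤ Filter.cofinite →
    ∀ (k : ℕ), 2 ≤ k →
    ∀ (u v : ℕ → unitary (H →L[ℂ] H)),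
      (∀ n, (u n : H →L[ℂ] H) ∈ N) → (∀ n, (v n : H →L[ℂ] H) ∈ N) →
      (∀ m : ℕ, 1 ≤ m → m ≤ k → ∀ (s : ℕ) (e : Fin m → ℤ),
        Filter.Tendsto
          (fun n => τ (List.prod (List.ofFn (fun i : Fin m =>
            (((if (i.val + s) % 2 = 0 then u n else v n) ^ (e i) : unitary (H →L[ℂ] H)) : H →L[ℂ] H)
            - algebraMap ℂ (H →L[ℂ] H) (τ
                (((if (i.val + s) % 2 = 0 then u n else v n) ^ (e i) : unitary (H →L[ℂ] H)) : H →L[ℂ] H))))))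
          (↑𝒰 : Filter ℕ) (nhds 0)) →
      ∃ (u' v' : ℕ → unitary (H →L[ℂ] H)),
        (∀ n, (u' n : H →L[ℂ] H) ∈ N) ∧ (∀ n, (v' n : H →L[ℂ] H) ∈ N) ∧
        Filter.Tendsto
          (fun n => τ (star ((u' n : H →L[ℂ] H) - (u n : H →L[ℂ] H))
            * ((u' n : H →L[ℂ] H) - (u n : H →L[ℂ] H)))) (↑𝒰 : Filter ℕ) (nhds 0) ∧
        Filter.Tendsto
          (fun n => τ (star ((v' n : H →L[ℂ] H) - (v n : H →L[ℂ] H))
            * ((v' n : H →L[ℂ] H) - (v n : H →L[ℂ] H)))) (↑𝒰 : Filter ℕ) (nhds 0) ∧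
        ∀ n : ℕ, ∀ m : ℕ, 1 ≤ m → m ≤ k - 1 → ∀ (s : ℕ) (e : Fin m → ℤ),
          τ (List.prod (List.ofFn (fun i : Fin m =>
            (((if (i.val + s) % 2 = 0 then u' n else v' n) ^ (e i) : unitary (H →L[ℂ] H)) : H →L[ℂ] H)
            - algebraMap ℂ (H →L[ℂ] H) (τ
                (((if (i.val + s) % 2 = 0 then u' n else v' n) ^ (e i) : unitary (H →L[ℂ] H)) : H →L[ℂ] H))))) = 0) := by
  exact Pool.Agent.Lib.MP_64d6f1_an.not_claim

end Pool.Agent.S04878
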