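import Pool.Statements.S04899
import Pool.Agent.Lib.MP_675d17_an.Final

set_option autoImplicit false
open Pool Pool.MP_675d17_an

namespace Pool.Agent.S04899

/-- If a real polynomial with all coefficients a_0..a_n positive has only real roots, then for every r ≥ 1 the polynomial whose k-th coefficient is the r×r Toeplitz minor det(a_{k-i+j}) also has only real roots, all negative. -/
theorem result :
    ∀ (p : Polynomial ℝ), (∀ k ≤ p.natDegree, 0 < p.coeff k) →
      p.roots.card = p.natDegree →
      ∀ r : ℕ, 1 ≤ r → ∀ q : Polynomial ℝ,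
        q = ∑ k ∈ Finset.range (p.natDegree + 1),
              Polynomial.C (Matrix.det (Matrix.of (fun i j : Fin r =>
                if 0 ≤ (k : ℤ) - ((i : ℕ) : ℤ) + ((j : ℕ) : ℤ)
                then p.coeff ((k : ℤ) - ((i : ℕ) : ℤ) + ((j : ℕ) : ℤ)).toNat
                else 0))) * Polynomial.X ^ k →
        q.roots.card = q.natDegree ∧ ∀ x ∈ q.roots, x < 0 := by
  intro p hp hr r h1 q hq
  obtain ⟨R, rfl⟩ : ∃ R, r = R + 1 := ⟨r - 1, by omega⟩
  apply Pool.Agent.Lib.MP_675d17_an.fisk p hp hr R q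
  intro k
  rw [hq, Polynomial.finsetSum_coeff]
  simp only [Polynomial.coeff_C_mul, Polynomial.coeff_X_pow, mul_ite, mul_one, mul_zero]
  rw [Finset.sum_ite_eq]
  simp only [Finset.mem_range, Nat.lt_succ_iff]
  split_ifs with hk
  · have e := (algebraMap ℝ ℂ).map_det (Matrix.of (fun i j : Fin (R + 1) =>
        if 0 ≤ (k : ℤ) - ((i : ℕ) : ℤ) + ((j : ℕ) : ℤ)
        then p.coeff ((k : ℤ) - ((i : ℕ) : ℤ) + ((j : ℕ) : ℤ)).toNat else 0))
    refine e.trans ?_
    unfold Pool.Agent.Lib.MP_675d17_an.JJ
    rw [← Matrix.det_transpose]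
    congr 1
    ext j i
    simp only [RingHom.mapMatrix_apply, Matrix.transpose_apply, Matrix.map_apply, Matrix.of_apply,
      PowerSeries.coeff_X_pow_mul', Polynomial.coeff_coe, Polynomial.coeff_map]
    by_cases h : (i : ℕ) ≤ k + j
    · rw [if_pos h, if_pos (by omega)]
      congr 2
      omega
    · rw [if_neg h, if_neg (by omega), map_zero]
  · simp

end Pool.Agent.S04899
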