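import Pool.Statements.S04918
import Pool.Agent.Lib.MP_690138_an.Build

set_option autoImplicit false
open Pool Pool.MP_690138_an

namespace Pool.Agent.S04918

open Pool.Agent.Lib.MP_690138_an.KS in
/-- There is an operator on a separable Hilbert space lying in no triangular algebra. -/
theorem result :
    ¬ (∀ (H : Type) [NormedAddCommGroup H] [InnerProductSpace ℂ H] [CompleteSpace H]
      (T : H →L[ℂ] H),
      ∃ A : Subalgebra ℂ (H →L[ℂ] H), T ∈ A ∧
        {x : H →L[ℂ] H | x ∈ A ∧ star x ∈ A} =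
          Set.centralizer {x : H →L[ℂ] H | x ∈ A ∧ star x ∈ A}) := by
  intro h
  obtain ⟨m⟩ := exists_model (default : HilbertBasis ℕ ℂ (lp (fun _ : ℕ => ℂ) 2))
  obtain ⟨A, hA, hD⟩ := h (H4 (lp (fun _ : ℕ => ℂ) 2)) (m.Aop m.S)
  have : IsTri A := ⟨hD⟩
  exact m.not_mem hA

end Pool.Agent.S04918
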