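import Pool.Statements.S05036
import Pool.Agent.Lib.MP_71aad1_an.QJ6
import Pool.Agent.Lib.MP_71aad1_an.QJ7
import Pool.Agent.Lib.MP_71aad1_an.QC3
import Pool.Agent.Lib.MP_71aad1_an.QW13

set_option autoImplicit false
open Pool Pool.MP_71aad1_an

namespace Pool.Agent.S05036

/-- The negation of the preceding statement: For a finite nontrivial group G and any G-primitive matrix A over Z₊G, for every N there are N G-primitive matrices strong shift equivalent to A over ℤG that are pairwise not strong shift equivalent over Z₊G. -/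
theorem result :
    ¬ (∀ (G : Type) [Group G] [Fintype G] [Nontrivial G]
    (A : Σ n : ℕ, (Fin n → Fin n → G → ℤ)),
    (0 < A.1 ∧ (∀ i j g, 0 ≤ A.2 i j g) ∧
      ∃ k : ℕ, ∀ i j g, 0 <
        ((fun M : Fin A.1 → Fin A.1 → G → ℤ =>
            fun i l g => ∑ j, ∑ h : G, M i j h * A.2 j l (h⁻¹ * g))^[k] A.2) i j g) →
    ∀ N : ℕ, ∃ f : Fin N → (Σ n : ℕ, (Fin n → Fin n → G → ℤ)),
      (∀ m, (0 < (f m).1 ∧ (∀ i j g, 0 ≤ (f m).2 i j g) ∧
          ∃ k : ℕ, ∀ i j g, 0 <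
            ((fun M : Fin (f m).1 → Fin (f m).1 → G → ℤ =>
                fun i l g => ∑ j, ∑ h : G, M i j h * (f m).2 j l (h⁻¹ * g))^[k] (f m).2) i j g) ∧
        Relation.EqvGen
          (fun P Q : (Σ n : ℕ, (Fin n → Fin n → G → ℤ)) =>
            ∃ (R : Fin P.1 → Fin Q.1 → G → ℤ) (S : Fin Q.1 → Fin P.1 → G → ℤ),
              P.2 = (fun i l g => ∑ j, ∑ h : G, R i j h * S j l (h⁻¹ * g)) ∧
              Q.2 = (fun i l g => ∑ j, ∑ h : G, S i j h * R j l (h⁻¹ * g)))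
          (f m) A) ∧
      ∀ m m', m ≠ m' → ¬ Relation.EqvGen
          (fun P Q : (Σ n : ℕ, (Fin n → Fin n → G → ℤ)) =>
            ∃ (R : Fin P.1 → Fin Q.1 → G → ℤ) (S : Fin Q.1 → Fin P.1 → G → ℤ),
              (∀ i j g, 0 ≤ R i j g) ∧ (∀ i j g, 0 ≤ S i j g) ∧
              P.2 = (fun i l g => ∑ j, ∑ h : G, R i j h * S j l (h⁻¹ * g)) ∧
              Q.2 = (fun i l g => ∑ j, ∑ h : G, S i j h * R j l (h⁻¹ * g)))
          (f m) (f m')) := by
  open Pool.Agent.Lib.MP_71aad1_an.SS in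
  exact frozen_of (mainStmt (jointStmt (thmC finalStmt)))

end Pool.Agent.S05036
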