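import Pool.Statements.S05663
import Pool.Agent.Lib.MP_a2f1b8_an.Glue
import Pool.Agent.Lib.MP_a2f1b8_an.Flex

set_option autoImplicit false
open Pool Pool.MP_a2f1b8_an

namespace Pool.Agent.S05663

/-- For every smooth plane cubic P(x,y,z)=0, there is a holomorphic map from {P≠0} in C^3 to C^2, invariant under scaling, with surjective derivative everywhere; that is, a holomorphic immersion of P^2 minus the cubic into C^2. -/
theorem result :
    ∀ P : MvPolynomial (Fin 3) ℂ, P.IsHomogeneous 3 →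
      (∀ z : Fin 3 → ℂ, z ≠ 0 → MvPolynomial.eval z P = 0 →
        ∃ i : Fin 3, MvPolynomial.eval z (MvPolynomial.pderiv i P) ≠ 0) →
      ∃ F : (Fin 3 → ℂ) → (Fin 2 → ℂ),
        DifferentiableOn ℂ F {z : Fin 3 → ℂ | MvPolynomial.eval z P ≠ 0} ∧
        (∀ z : Fin 3 → ℂ, MvPolynomial.eval z P ≠ 0 →
          ∀ c : ℂ, c ≠ 0 → F (c • z) = F z) ∧
        (∀ z : Fin 3 → ℂ, MvPolynomial.eval z P ≠ 0 →
          Function.Surjective (fderiv ℂ F z)) := by
  intro P hP hs
  obtain ⟨A, α, β, c, hc, hA⟩ := Pool.Agent.Lib.MP_a2f1b8_an.exists_normal_form P hP hs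
  obtain ⟨F, h1, h2, h3⟩ := Pool.Agent.Lib.MP_a2f1b8_an.weierstrass_immersion α β
  have hmem : ∀ z : Fin 3 → ℂ, MvPolynomial.eval z P ≠ 0 → A.symm z ∈
      {w : Fin 3 → ℂ | w 1 ^ 2 * w 2 - w 0 * (w 0 ^ 2 + α * w 0 * w 2 + β * w 2 ^ 2) ≠ 0} := by
    intro z hz h0
    apply hz
    have h4 := hA (A.symm z)
    rw [A.apply_symm_apply, h0, mul_zero] at h4
    exact h4
  refine ⟨F ∘ A.symm, h1.comp A.symm.differentiableOn fun z hz => hmem z hz, fun z hz k hk => ?_,
    fun z hz => ?_⟩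
  · rw [Function.comp_apply, Function.comp_apply, map_smul]
    exact h2 _ (hmem z hz) k hk
  · rw [A.symm.comp_right_fderiv]
    exact (h3 _ (hmem z hz)).comp A.symm.surjective

end Pool.Agent.S05663
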