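import Pool.Statements.S05709
import Pool.Agent.Lib.MP_a66ead_an.Tree

set_option autoImplicit false
open Pool Pool.MP_a66ead_an

namespace Pool.Agent.S05709

open Filter Topology Pool.Agent.Lib.MP_a66ead_an

/-- For every real Banach space X whose bidual modulo X is infinite-dimensional and every λ ≥ 1, some equivalent norm on X has Banach–Mazur distance at least λ to every space isometric to a dual space. -/
theorem result :
    ∀ (X : Type) [NormedAddCommGroup X] [NormedSpace ℝ X] [CompleteSpace X],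
      (∀ n : ℕ, ∃ φ : Fin n → ((X →L[ℝ] ℝ) →L[ℝ] ℝ),
        ∀ (c : Fin n → ℝ) (x : X),
          (∀ f : X →L[ℝ] ℝ, ∑ i, c i * φ i f = f x) → c = 0) →
      ∀ l : ℝ, 1 ≤ l →
        ∃ N : Seminorm ℝ X,
          (∃ a b : ℝ, 0 < a ∧ 0 < b ∧ ∀ x : X, a * ‖x‖ ≤ N x ∧ N x ≤ b * ‖x‖) ∧
          ∀ (Z : Type) [NormedAddCommGroup Z] [NormedSpace ℝ Z]
            (T : X ≃ₗ[ℝ] (Z →L[ℝ] ℝ)) (a b : ℝ),
            (∀ x : X, ‖T x‖ ≤ a * N x) → (∀ x : X, N x ≤ b * ‖T x‖) → l ≤ a * b := by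
  intro X _ _ _ H l hl
  obtain ⟨z, h, hz, hh, h1, h2, h3⟩ := exists_tree_system H
  obtain ⟨n, hn⟩ : ∃ n : ℕ, 4 * l ≤ n := exists_nat_ge _
  set δ : NNReal := (10 * (n : NNReal) + 1)⁻¹ with hδ
  have hδ' : (δ : ℝ) = (10 * (n : ℝ) + 1)⁻¹ := by simp [hδ]
  have hδ0 : (0 : ℝ) < δ := by rw [hδ']; positivity
  have hδ1 : (δ : ℝ) * (10 * n) ≤ 1 := by
    rw [hδ', inv_mul_le_iff₀ (by positivity)]
    linarith
  let p : {t : List ℕ // t.length ≤ n} → Seminorm ℝ X := fun t => branch h t.1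
  have hp : ∀ t x, p t x ≤ 10 * n * ‖x‖ := by
    intro t x
    refine (branch_le h hh t.1 x).trans ?_
    have : (t.1.length : ℝ) ≤ n := by exact_mod_cast t.2
    gcongr
  have hbdd : BddAbove (Set.range p) := by
    refine ⟨(10 * (n : NNReal)) • normSeminorm ℝ X, ?_⟩
    rintro _ ⟨t, rfl⟩ x
    simpa [NNReal.smul_def] using hp t x
  have : Nonempty {t : List ℕ // t.length ≤ n} := ⟨⟨[], Nat.zero_le _⟩⟩
  let N : Seminorm ℝ X := δ • normSeminorm ℝ X + ⨆ t, p t
  have hN : ∀ x, N x = δ * ‖x‖ + ⨆ t, p t x := by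
    intro x
    rw [← Seminorm.iSup_apply hbdd]
    rfl
  have hup : ∀ x c, (∀ t, p t x ≤ c) → N x ≤ δ * ‖x‖ + c := by
    intro x c hc
    rw [hN]
    linarith [ciSup_le hc]
  have hlow : ∀ x t, δ * ‖x‖ + p t x ≤ N x := by
    intro x t
    rw [hN]
    have : p t x ≤ ⨆ t, p t x := le_ciSup ⟨10 * n * ‖x‖, by rintro _ ⟨t, rfl⟩; exact hp t x⟩ t
    linarith
  have hlow0 : ∀ x, δ * ‖x‖ ≤ N x := by
    intro x
    have h0 := hlow x ⟨[], Nat.zero_le _⟩
    have h1 := apply_nonneg (p ⟨[], Nat.zero_le _⟩) x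
    linarith
  have hup0 : ∀ x, N x ≤ (δ + 10 * n) * ‖x‖ := by
    intro x
    have := hup x _ fun t => hp t x
    linarith
  refine ⟨N, ⟨δ, δ + 10 * n, hδ0, by positivity, fun x => ⟨hlow0 x, hup0 x⟩⟩, ?_⟩
  intro Z _ _ T a b ha hb
  have hz0 : z [] 0 ≠ 0 := by
    intro h0
    have := h1 [] 0
    rw [h0, map_zero] at this
    exact zero_ne_one this
  have hN0 : 0 < N (z [] 0) := lt_of_lt_of_le (mul_pos hδ0 (norm_pos_iff.2 hz0)) (hlow0 _)
  have hT0 : 0 < ‖T (z [] 0)‖ := norm_pos_iff.2 fun h0 => hz0 (T.map_eq_zero_iff.1 h0)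
  have ha0 : 0 < a := (mul_pos_iff_of_pos_right hN0).1 (hT0.trans_le (ha _))
  have hb0 : 0 < b := (mul_pos_iff_of_pos_right hT0).1 (hN0.trans_le (hb _))
  let L : (ℕ → X) → X → Prop := fun G g =>
    ∀ y : Z, Tendsto (fun M => T (G M) y) (hyperfilter ℕ) (𝓝 (T g y))
  obtain ⟨t, G, g, f, ht, hG, hf, hfg, hGn, hGa⟩ := tree_argument z h hz h1 h2 h3 L
    (fun y => tendsto_const_nhds)
    (by
      intro G w g u v σ hG hw y
      have := (hG y).add (((tendsto_const_nhds (x := T v y)).sub (hw y)).const_mul σ)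
      simpa only [map_add, map_smul, map_sub, add_apply, smul_apply, sub_apply, smul_eq_mul]
        using this)
    (by
      intro s
      obtain ⟨v, -, hv⟩ := exists_wlim (hyperfilter ℕ) (fun M => T (z s M))
        (a * ((δ + 10 * n) * 5)) (fun M => (ha _).trans (by
          refine mul_le_mul_of_nonneg_left ((hup0 _).trans ?_) ha0.le
          exact mul_le_mul_of_nonneg_left (hz s M) (by positivity)))
      refine ⟨T.symm v, fun y => ?_⟩
      rw [T.apply_symm_apply]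
      exact hv y) n
  have hNG : ∀ᶠ M in (hyperfilter ℕ : Filter ℕ), N (G M) ≤ 2 := by
    filter_upwards [hGa] with M hM
    have e1 := hup (G M) 1 fun u => (hM.branch_le_one h u.1).1
    have e2 : (δ : ℝ) * ‖G M‖ ≤ δ * (10 * n) := mul_le_mul_of_nonneg_left (hGn M) hδ0.le
    linarith
  have hTg : ‖T g‖ ≤ a * 2 := by
    refine ContinuousLinearMap.opNorm_le_bound _ (by positivity) fun y => ?_
    refine le_of_tendsto (hG y).norm ?_
    filter_upwards [hNG] with M hM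
    refine ((T (G M)).le_opNorm y).trans (mul_le_mul_of_nonneg_right ((ha _).trans ?_)
      (norm_nonneg _))
    exact mul_le_mul_of_nonneg_left hM ha0.le
  have e1 : N g ≤ b * (a * 2) := (hb g).trans (mul_le_mul_of_nonneg_left hTg hb0.le)
  have e2 := hlow g ⟨t, ht.le⟩
  have e3 : p ⟨t, ht.le⟩ g = branch h t g := rfl
  have e4 := hf g
  have e5 := le_abs_self (f g)
  have e6 : 0 ≤ (δ : ℝ) * ‖g‖ := by positivity
  nlinarith

end Pool.Agent.S05709
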