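import Pool.Statements.S05933
import Pool.Agent.Lib.MP_ba391d_an.Final

set_option autoImplicit false
open Pool Pool.MP_ba391d_an

namespace Pool.Agent.S05933

/-- There are positive masses and a C² collision-free solution of the spatial Newtonian four-body problem, defined for all real time, with negative energy, whose four bodies are never coplanar. -/
theorem result :
    ∃ m : Fin 4 → ℝ, (∀ i, 0 < m i) ∧
      ∃ q : ℝ → Fin 4 → EuclideanSpace ℝ (Fin 3),
        ContDiff ℝ 2 q ∧
        (∀ t : ℝ, ∀ i j : Fin 4, i ≠ j → q t i ≠ q t j) ∧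
        (∀ t : ℝ, ∀ i : Fin 4,
          deriv (fun s => deriv (fun r => q r i) s) t =
            ∑ j ∈ Finset.univ.erase i,
              (m j / ‖q t j - q t i‖ ^ 3) • (q t j - q t i)) ∧
        (∀ t : ℝ,
          (1 / 2 : ℝ) * ∑ i : Fin 4, m i * ‖deriv (fun r => q r i) t‖ ^ 2
            - ∑ i : Fin 4, ∑ j ∈ Finset.univ.filter (fun j => i < j),
                m i * m j / ‖q t i - q t j‖ < 0) ∧
        (∀ t : ℝ, AffineIndependent ℝ (q t)) := by
  obtain ⟨m, hm, q, h1, h2, h3, h4, h5, -⟩ := Pool.Agent.Lib.MP_ba391d_an.main_solution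
  exact ⟨m, hm, q, h1, h2, h3, h4, h5⟩

end Pool.Agent.S05933
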