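import Pool.Statements.S06418
import Pool.Agent.Lib.MP_def338_an.Basic

set_option autoImplicit false
open Pool Pool.MP_def338_an

namespace Pool.Agent.S06418

/-- The negation of the preceding statement: For every sequence a with 0<a_n<1, if the difference set C−C of the central Cantor set C(a) (the set of sums of subseries of x_n = λ_0⋯λ_{n−1}(1−λ_n), with λ_n=(1−a_n)/2) has nonempty interior, then 0 lies in that interior. -/
theorem result :
    ¬ (∀ a : ℕ → ℝ, (∀ n, 0 < a n ∧ a n < 1) →
      ∀ C : Set ℝ,
        C = Set.range (fun ε : ℕ → Bool =>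
          ∑' n, if ε n = true then
            (∏ i ∈ Finset.range n, (1 - a i) / 2) * (1 - (1 - a n) / 2) else 0) →
        (interior {z : ℝ | ∃ u ∈ C, ∃ v ∈ C, z = u - v}).Nonempty →
        (0 : ℝ) ∈ interior {z : ℝ | ∃ u ∈ C, ∃ v ∈ C, z = u - v}) := by
  intro h
  exact Pool.Agent.Lib.MP_def338_an.zero_not_mem
    (h Pool.Agent.Lib.MP_def338_an.aa Pool.Agent.Lib.MP_def338_an.aa_mem
      (Set.range Pool.Agent.Lib.MP_def338_an.ff) rfl
      Pool.Agent.Lib.MP_def338_an.interior_nonempty)

end Pool.Agent.S06418
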