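import Pool.Statements.S06936

set_option autoImplicit false
open Pool Pool.MP_038631_co

namespace Pool.Agent.S06936

/-- Two disjoint copies of the complete graph on 13 vertices. -/
def twoK13 : SimpleGraph (Bool × Fin 13) where
  Adj x y := x.1 = y.1 ∧ x.2 ≠ y.2
  symm := ⟨fun _ _ h => ⟨h.1.symm, h.2.symm⟩⟩
  loopless := ⟨fun _ h => h.2 rfl⟩

instance twoK13DecAdj : DecidableRel twoK13.Adj := fun x y =>
  inferInstanceAs (Decidable (x.1 = y.1 ∧ x.2 ≠ y.2))

theorem twoK13_degree : ∀ v : Bool × Fin 13, twoK13.degree v = 12 := by
  decide +kernel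

theorem twoK13_support {x y : Bool × Fin 13} (w : twoK13.Walk x y) :
    ∀ z ∈ w.support, z.1 = x.1 := by
  induction w with
  | nil => intro z hz; simp at hz; rw [hz]
  | cons h p ih =>
    intro z hz
    rw [SimpleGraph.Walk.support_cons, List.mem_cons] at hz
    rcases hz with rfl | hz
    · rfl
    · rw [ih z hz]; exact h.1.symm

theorem card_support_ge {x : Bool × Fin 13} (w : twoK13.Walk x x) (hw : w.IsCycle) :
    w.length ≤ w.support.toFinset.card := by
  have hnd : w.support.tail.Nodup := hw.support_nodup
  have hlen : w.support.tail.length = w.length := by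
    simp [SimpleGraph.Walk.length_support]
  calc w.length = w.support.tail.toFinset.card := by
        rw [List.toFinset_card_of_nodup hnd, hlen]
    _ ≤ w.support.toFinset.card := by
        apply Finset.card_le_card
        intro z hz
        rw [List.mem_toFinset] at hz ⊢
        exact List.mem_of_mem_tail hz

theorem no_two {x y : Bool × Fin 13} (hxy : x.1 = y.1)
    (w : twoK13.Walk x x) (hw : w.IsCycle) (hwl : 7 ≤ w.length)
    (w' : twoK13.Walk y y) (hw' : w'.IsCycle) (hwl' : 7 ≤ w'.length)
    (hd : List.Disjoint w.support w'.support) : False := by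
  have h1 := card_support_ge w hw
  have h2 := card_support_ge w' hw'
  have hdisj : Disjoint w.support.toFinset w'.support.toFinset :=
    List.disjoint_toFinset_iff_disjoint.mpr hd
  have hsub : w.support.toFinset ∪ w'.support.toFinset ⊆
      Finset.univ.filter (fun z : Bool × Fin 13 => z.1 = x.1) := by
    intro z hz
    rw [Finset.mem_union, List.mem_toFinset, List.mem_toFinset] at hz
    rw [Finset.mem_filter]
    refine ⟨Finset.mem_univ _, ?_⟩
    rcases hz with hz | hz
    · exact twoK13_support w z hz
    · rw [twoK13_support w' z hz, hxy]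
  have hcard : ∀ b : Bool,
      (Finset.univ.filter (fun z : Bool × Fin 13 => z.1 = b)).card = 13 := by
    decide +kernel
  have h3 := Finset.card_le_card hsub
  rw [Finset.card_union_of_disjoint hdisj, hcard] at h3
  omega

/-- The negation of the preceding statement: For all k ≥ 2 and odd r ≥ 3, every finite simple graph with at least rk vertices and minimum degree at least (r+1)k/2 contains k pairwise vertex-disjoint cycles, each of length at least r.
Counterexample: k = 3, r = 7 and the disjoint union of two complete graphs on 13 vertices. -/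
theorem result :
    ¬ (∀ k r : ℕ, 2 ≤ k → 3 ≤ r → Odd r →
      ∀ (V : Type) [Fintype V] (G : SimpleGraph V) [DecidableRel G.Adj],
        r * k ≤ Fintype.card V →
        (∀ v : V, (r + 1) * k ≤ 2 * G.degree v) →
        ∃ (u : Fin k → V) (c : ∀ i : Fin k, G.Walk (u i) (u i)),
          (∀ i : Fin k, (c i).IsCycle ∧ r ≤ (c i).length) ∧
          ∀ i j : Fin k, i ≠ j → List.Disjoint (c i).support (c j).support) := by
  intro h
  obtain ⟨u, c, hc, hd⟩ := h 3 7 (by norm_num) (by norm_num) (by decide) (Bool × Fin 13) twoK13
    (by simp) (by intro v; rw [twoK13_degree v])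
  obtain ⟨i, j, hij, hu⟩ :=
    Fintype.exists_ne_map_eq_of_card_lt (fun i : Fin 3 => (u i).1) (by simp)
  exact no_two hu (c i) (hc i).1 (hc i).2 (c j) (hc j).1 (hc j).2 (hd i j hij)

end Pool.Agent.S06936
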