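import Pool.Statements.S08187
import Pool.Agent.Lib.MP_3a81bf_co.Reduce

set_option autoImplicit false
open Pool Pool.MP_3a81bf_co

namespace Pool.Agent.S08187

/-- For every n ≥ 1, the least degree of an effective chip configuration on the n-cube graph that, after some chip-firing, can lose a chip at any chosen vertex without going negative (the divisorial gonality) is 2^(n-1). -/
theorem result :
    ∀ n : ℕ, 1 ≤ n →
      IsLeast
        {d : ℕ | ∃ D : (Fin n → Bool) → ℕ,
            (∑ x, D x) = d ∧
            ∀ v : Fin n → Bool, ∃ f : (Fin n → Bool) → ℤ,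
              ∀ w : Fin n → Bool,
                0 ≤ (D w : ℤ) - (if w = v then 1 else 0)
                    - ((n : ℤ) * f w - ∑ i : Fin n, f (Function.update w i (!(w i))))}
        (2 ^ (n - 1)) := by
  intro n hn
  obtain ⟨m, rfl⟩ : ∃ m, n = m + 1 := ⟨n - 1, by omega⟩
  constructor
  · obtain ⟨D, h1, h2⟩ := Pool.Agent.Lib.MP_3a81bf_co.upper m
    exact ⟨D, by simpa using h1, h2⟩
  · rintro d ⟨D, h1, h2⟩
    have := Pool.Agent.Lib.MP_3a81bf_co.lower D h2
    rw [h1, pow_succ] at this
    simp only [Nat.add_sub_cancel]
    omega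

end Pool.Agent.S08187
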