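import Pool.Statements.S08711
import Pool.Agent.Lib.MP_4ffbdc_co.Main

set_option autoImplicit false
open Pool Pool.MP_4ffbdc_co

namespace Pool.Agent.S08711

/-- For every k ≥ 4 there is a constant c such that any nonempty finite graph H that is a (not necessarily induced) subgraph of some k-critical graph is also a subgraph of a k-critical graph with at most c times as many vertices as H. -/
theorem result :
    ∀ k : ℕ, 4 ≤ k → ∃ c : ℕ, ∀ n : ℕ, 0 < n → ∀ H : SimpleGraph (Fin n),
      (∃ m : ℕ, ∃ G : SimpleGraph (Fin m),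
        G.chromaticNumber = (k : ℕ∞) ∧
        (∀ v w : Fin m, G.Adj v w →
          (G.deleteEdges {s(v, w)}).chromaticNumber < (k : ℕ∞)) ∧
        (∀ v : Fin m, (G.induce ({v}ᶜ : Set (Fin m))).chromaticNumber < (k : ℕ∞)) ∧
        ∃ f : H →g G, Function.Injective f) →
      ∃ m : ℕ, ∃ G : SimpleGraph (Fin m),
        G.chromaticNumber = (k : ℕ∞) ∧
        (∀ v w : Fin m, G.Adj v w →
          (G.deleteEdges {s(v, w)}).chromaticNumber < (k : ℕ∞)) ∧
        (∀ v : Fin m, (G.induce ({v}ᶜ : Set (Fin m))).chromaticNumber < (k : ℕ∞)) ∧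
        (∃ f : H →g G, Function.Injective f) ∧
        m ≤ c * n := by
  intro k hk
  obtain ⟨q, rfl⟩ : ∃ q, k = q + 1 := ⟨k - 1, by omega⟩
  refine ⟨42 * q, ?_⟩
  rintro n hn H ⟨m₀, G₀, h1, h2, h3, f, hf⟩
  exact Pool.Agent.Lib.MP_4ffbdc_co.small_critical q (by omega) n hn H m₀ G₀ h1 h2 h3 f hf

end Pool.Agent.S08711
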