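import Pool.Statements.S08895
import Pool.Agent.Lib.MP_59216f_co.GTop

set_option autoImplicit false
open Pool Pool.MP_59216f_co

namespace Pool.Agent.S08895

/-- Every finite connected graph with all degrees at least 3 has a set S of at most half the vertices such that every vertex has a neighbour in S, and some dominating set is disjoint from S. -/
theorem result :
    ∀ (V : Type) [Fintype V] [DecidableEq V] (G : SimpleGraph V) [DecidableRel G.Adj],
      G.Connected → (∀ v : V, 3 ≤ G.degree v) →
      ∃ S D : Finset V,
        (∀ v : V, ∃ u ∈ S, G.Adj v u) ∧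
        2 * S.card ≤ Fintype.card V ∧
        Disjoint S D ∧
        (∀ v : V, v ∈ D ∨ ∃ u ∈ D, G.Adj v u) := by
  intro V _ _ G _ _ h
  exact Pool.Agent.Lib.MP_59216f_co.TD.graph_main G h

end Pool.Agent.S08895
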