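import Pool.Statements.S08967
import Pool.Agent.Lib.MP_5bcad1_co.Bridge

set_option autoImplicit false
open Classical
open Pool Pool.MP_5bcad1_co

namespace Pool.Agent.S08967

/-- For every m, the least possible max-cut size among simple graphs with m edges equals the least possible max-cut size among loopless multigraphs with m edges, with edges counted with multiplicity. -/
theorem result : ∀ m : ℕ,
    sInf {c : ℕ | ∃ n : ℕ, ∃ G : SimpleGraph (Fin n), G.edgeFinset.card = m ∧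
        c = Finset.univ.sup (fun S : Finset (Fin n) =>
          ((S ×ˢ Sᶜ).filter (fun p => G.Adj p.1 p.2)).card)}
    = sInf {c : ℕ | ∃ n : ℕ, ∃ w : Fin n → Fin n → ℕ,
        (∀ i j, w i j = w j i) ∧ (∀ i, w i i = 0) ∧
        (∑ i, ∑ j, w i j) = 2 * m ∧
        c = Finset.univ.sup (fun S : Finset (Fin n) =>
          ∑ p ∈ S ×ˢ Sᶜ, w p.1 p.2)} := by
  intro m
  have hdeg : ∀ (n : ℕ) (G : SimpleGraph (Fin n)),
      ∑ i, ∑ j, (if G.Adj i j then 1 else 0 : ℕ) = 2 * G.edgeFinset.card := by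
    intro n G
    rw [← G.sum_degrees_eq_twice_card_edges]
    refine Finset.sum_congr rfl fun i _ => ?_
    rw [← SimpleGraph.card_neighborFinset_eq_degree, SimpleGraph.neighborFinset_eq_filter,
      Finset.card_filter]
  have key : ∀ c ∈ {c : ℕ | ∃ n : ℕ, ∃ w : Fin n → Fin n → ℕ,
        (∀ i j, w i j = w j i) ∧ (∀ i, w i i = 0) ∧
        (∑ i, ∑ j, w i j) = 2 * m ∧
        c = Finset.univ.sup (fun S : Finset (Fin n) =>
          ∑ p ∈ S ×ˢ Sᶜ, w p.1 p.2)},
      ∃ c' ∈ {c : ℕ | ∃ n : ℕ, ∃ G : SimpleGraph (Fin n), G.edgeFinset.card = m ∧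
        c = Finset.univ.sup (fun S : Finset (Fin n) =>
          ((S ×ˢ Sᶜ).filter (fun p => G.Adj p.1 p.2)).card)}, c' ≤ c := by
    rintro c ⟨n, w, h1, h2, h3, h4⟩
    obtain ⟨N, W, a1, a2, a3, a4⟩ := Pool.Agent.Lib.MP_5bcad1_co.simple_of_multi (c := c) w h1 h2 h3
      fun S => by
        rw [h4]
        exact Finset.le_sup (f := fun S : Finset (Fin n) => ∑ p ∈ S ×ˢ Sᶜ, w p.1 p.2)
          (Finset.mem_univ S)
    obtain ⟨G, hG⟩ : ∃ G : SimpleGraph (Fin N), ∀ i j, G.Adj i j ↔ W i j = 1 :=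
      ⟨{ Adj := fun i j => W i j = 1
         symm := ⟨fun i j h => by rw [a1.symm]; exact h⟩
         loopless := ⟨fun i h => by rw [a1.diag] at h; exact zero_ne_one h⟩ },
        fun _ _ => Iff.rfl⟩
    have hW : ∀ i j, W i j = ((if G.Adj i j then 1 else 0 : ℕ) : ℤ) := fun i j => by
      by_cases h : G.Adj i j
      · rw [if_pos h]; exact (hG i j).1 h
      · rw [if_neg h]; exact (a2 i j).resolve_right fun h' => h ((hG i j).2 h')
    refine ⟨_, ⟨N, G, ?_, rfl⟩, Finset.sup_le fun S _ => ?_⟩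
    · have b1 := hdeg N G
      simp only [hW] at a3
      have b2 : ∑ i, ∑ j, (if G.Adj i j then 1 else 0 : ℕ) = 2 * m := by exact_mod_cast a3
      omega
    · have b1 := a4 S
      simp only [hW] at b1
      rw [Finset.card_filter]
      exact_mod_cast b1
  have hne : {c : ℕ | ∃ n : ℕ, ∃ w : Fin n → Fin n → ℕ,
        (∀ i j, w i j = w j i) ∧ (∀ i, w i i = 0) ∧
        (∑ i, ∑ j, w i j) = 2 * m ∧
        c = Finset.univ.sup (fun S : Finset (Fin n) =>
          ∑ p ∈ S ×ˢ Sᶜ, w p.1 p.2)}.Nonempty :=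
    ⟨_, 2, fun i j => if i = j then 0 else m, fun i j => by simp only [eq_comm],
      fun i => by simp, by simp [Fin.sum_univ_two, two_mul], rfl⟩
  obtain ⟨c', hc', hle⟩ := key _ (Nat.sInf_mem hne)
  refine le_antisymm ((Nat.sInf_le hc').trans hle) (Nat.sInf_le ?_)
  obtain ⟨n, G, h1, h2⟩ := Nat.sInf_mem ⟨c', hc'⟩
  refine ⟨n, fun i j => if G.Adj i j then 1 else 0, fun i j => by simp only [G.adj_comm],
    fun i => by simp, by rw [hdeg, h1], ?_⟩
  rw [h2]
  simp only [Finset.card_filter]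

end Pool.Agent.S08967
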