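import Pool.Statements.S09627
import Pool.Agent.Lib.MP_79d03b_co.Main

set_option autoImplicit false
open Pool Pool.MP_79d03b_co

namespace Pool.Agent.S09627

/-- If a_k>…>a_r>r≥3 and F(t−1,k) ≤ Σ C(a_i,i−1) < s ≤ F(t−1,k)+r−2, where F is the minimum shadow size, then no family of t k-subsets of ℕ has shadow of size exactly s. -/
theorem result :
    ∀ t k r s : ℕ, ∀ a : ℕ → ℕ,
      1 ≤ t → 3 ≤ r → r ≤ k → r < a r →
      (∀ i : ℕ, r ≤ i → i < k → a i < a (i + 1)) →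
      sInf {m : ℕ | ∃ 𝒜 : Finset (Finset ℕ), 𝒜.card = t - 1 ∧
          (∀ A ∈ 𝒜, A.card = k) ∧ (Finset.shadow 𝒜).card = m}
        ≤ ∑ i ∈ Finset.Icc r k, Nat.choose (a i) (i - 1) →
      ∑ i ∈ Finset.Icc r k, Nat.choose (a i) (i - 1) < s →
      s ≤ sInf {m : ℕ | ∃ 𝒜 : Finset (Finset ℕ), 𝒜.card = t - 1 ∧
          (∀ A ∈ 𝒜, A.card = k) ∧ (Finset.shadow 𝒜).card = m} + r - 2 →
      ¬ ∃ 𝒜 : Finset (Finset ℕ), 𝒜.card = t ∧
          (∀ A ∈ 𝒜, A.card = k) ∧ (Finset.shadow 𝒜).card = s := by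
  intro t k r s a ht hr hrk har hinc h1 h2 h3
  rintro ⟨A, hA, hz, hs⟩
  obtain ⟨e, rfl⟩ : ∃ e, r = e + 2 := ⟨r - 2, by omega⟩
  obtain ⟨n, rfl⟩ : ∃ n, k = e + n + 1 := ⟨k - e - 1, by omega⟩
  have hsum : ∑ i ∈ Finset.Icc (e + 2) (e + n + 1), Nat.choose (a i) (i - 1) =
      Pool.Agent.Lib.MP_79d03b_co.casc (fun i => a (e + 2 + i)) n (e + 1) := by
    unfold Pool.Agent.Lib.MP_79d03b_co.casc
    rw [← Finset.Ico_add_one_right_eq_Icc, Finset.sum_Ico_eq_sum_range,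
      show e + n + 1 + 1 - (e + 2) = n by omega]
    apply Finset.sum_congr rfl
    intro i _
    rw [show e + 2 + i - 1 = e + 1 + i by omega]
  rw [hsum] at h1 h2
  refine Pool.Agent.Lib.MP_79d03b_co.gap t n e s (fun i => a (e + 2 + i)) ht ?_ ?_ h1 h2 ?_ A hA hz hs
  · intro i hi
    exact hinc (e + 2 + i) (by omega) (by omega)
  · simp only [Nat.add_zero]
    omega
  · unfold Pool.Agent.Lib.MP_79d03b_co.F
    omega

end Pool.Agent.S09627
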