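import Pool.Statements.S09674
import Pool.Agent.Lib.MP_7c3aa9_co.Main

set_option autoImplicit false
open Pool Pool.MP_7c3aa9_co

namespace Pool.Agent.S09674

/-- The negation of the preceding statement: For every graph G of treewidth exactly two, the max number of triples on n points with no copy of the 3-uniform expansion of G is asymptotic to (σ(G)−1)·C(n,2), where σ(G) is the minimum crosscut size of that expansion. -/
theorem result :
    ¬ (∀ (k : ℕ) (G : SimpleGraph (Fin k)),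
    (∃ (m : ℕ) (T : SimpleGraph (Fin m)) (B : Fin m → Finset (Fin k)),
      T.IsTree ∧ (∀ i, (B i).card ≤ 3) ∧ (∀ v, ∃ i, v ∈ B i) ∧
      (∀ u v, G.Adj u v → ∃ i, u ∈ B i ∧ v ∈ B i) ∧
      (∀ v, (T.induce {i | v ∈ B i}).Connected)) →
    ¬ (∃ (m : ℕ) (T : SimpleGraph (Fin m)) (B : Fin m → Finset (Fin k)),
      T.IsTree ∧ (∀ i, (B i).card ≤ 2) ∧ (∀ v, ∃ i, v ∈ B i) ∧
      (∀ u v, G.Adj u v → ∃ i, u ∈ B i ∧ v ∈ B i) ∧
      (∀ v, (T.induce {i | v ∈ B i}).Connected)) →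
    Asymptotics.IsEquivalent Filter.atTop
      (fun n : ℕ => ((sSup {c : ℕ | ∃ H : Finset (Finset (Fin n)),
          (∀ h ∈ H, h.card = 3) ∧
          ¬ (∃ (φ : Fin k → Fin n) (w : Fin k → Fin k → Fin n),
              Function.Injective φ ∧
              (∀ u v, G.Adj u v →
                (∀ x, w u v ≠ φ x) ∧ ({φ u, φ v, w u v} : Finset (Fin n)) ∈ H) ∧
              (∀ u v u' v', G.Adj u v → G.Adj u' v' → w u v = w u' v' →
                (u = u' ∧ v = v') ∨ (u = v' ∧ v = u'))) ∧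
          H.card = c} : ℕ) : ℝ))
      (fun n : ℕ => (((sInf {c : ℕ | ∃ S : Finset (Fin k),
          (∀ u ∈ S, ∀ v ∈ S, ¬ G.Adj u v) ∧
          c = S.card + {e ∈ G.edgeSet | ∀ v ∈ e, v ∉ S}.ncard} : ℕ) : ℝ) - 1)
        * ((n.choose 2 : ℕ) : ℝ))) := by
  intro hall
  have hequiv := hall 23 Pool.Agent.Lib.MP_7c3aa9_co.G Pool.Agent.Lib.MP_7c3aa9_co.tw_le
    Pool.Agent.Lib.MP_7c3aa9_co.tw_not_le
  have hσ := Pool.Agent.Lib.MP_7c3aa9_co.sigma_le
  set σ : ℕ := sInf {c : ℕ | ∃ S : Finset (Fin 23),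
          (∀ u ∈ S, ∀ v ∈ S, ¬ Pool.Agent.Lib.MP_7c3aa9_co.G.Adj u v) ∧
          c = S.card + {e ∈ Pool.Agent.Lib.MP_7c3aa9_co.G.edgeSet | ∀ v ∈ e, v ∉ S}.ncard}
    with hσdef
  have hbound := hequiv.isLittleO.bound (c := 1 / 16) (by norm_num)
  rw [Filter.eventually_atTop] at hbound
  obtain ⟨N, hN⟩ := hbound
  set m : ℕ := N + 200 with hm
  have h1 := hN (9 + 2 * m) (by omega)
  simp only [Pi.sub_apply, Real.norm_eq_abs] at h1
  have hlow : 9 * m ^ 2 ≤ sSup {c : ℕ | ∃ H : Finset (Finset (Fin (9 + 2 * m))),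
          (∀ h ∈ H, h.card = 3) ∧
          ¬ (∃ (φ : Fin 23 → Fin (9 + 2 * m)) (w : Fin 23 → Fin 23 → Fin (9 + 2 * m)),
              Function.Injective φ ∧
              (∀ u v, Pool.Agent.Lib.MP_7c3aa9_co.G.Adj u v →
                (∀ x, w u v ≠ φ x) ∧ ({φ u, φ v, w u v} : Finset (Fin (9 + 2 * m))) ∈ H) ∧
              (∀ u v u' v', Pool.Agent.Lib.MP_7c3aa9_co.G.Adj u v →
                Pool.Agent.Lib.MP_7c3aa9_co.G.Adj u' v' → w u v = w u' v' →
                (u = u' ∧ v = v') ∨ (u = v' ∧ v = u'))) ∧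
          H.card = c} := by
    apply le_csSup
    · refine ⟨Fintype.card (Finset (Fin (9 + 2 * m))), ?_⟩
      rintro c ⟨H, -, -, rfl⟩
      exact Finset.card_le_univ H
    · exact ⟨Pool.Agent.Lib.MP_7c3aa9_co.H m, Pool.Agent.Lib.MP_7c3aa9_co.H_three m,
        Pool.Agent.Lib.MP_7c3aa9_co.H_free m, Pool.Agent.Lib.MP_7c3aa9_co.card_H m⟩
  generalize sSup {c : ℕ | ∃ H : Finset (Finset (Fin (9 + 2 * m))),
          (∀ h ∈ H, h.card = 3) ∧
          ¬ (∃ (φ : Fin 23 → Fin (9 + 2 * m)) (w : Fin 23 → Fin 23 → Fin (9 + 2 * m)),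
              Function.Injective φ ∧
              (∀ u v, Pool.Agent.Lib.MP_7c3aa9_co.G.Adj u v →
                (∀ x, w u v ≠ φ x) ∧ ({φ u, φ v, w u v} : Finset (Fin (9 + 2 * m))) ∈ H) ∧
              (∀ u v u' v', Pool.Agent.Lib.MP_7c3aa9_co.G.Adj u v →
                Pool.Agent.Lib.MP_7c3aa9_co.G.Adj u' v' → w u v = w u' v' →
                (u = u' ∧ v = v') ∨ (u = v' ∧ v = u'))) ∧
          H.card = c} = E at h1 hlow
  have hlowR : 9 * (m : ℝ) ^ 2 ≤ (E : ℝ) := by exact_mod_cast hlow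
  have hC : (((9 + 2 * m).choose 2 : ℕ) : ℝ) = (9 + 2 * (m : ℝ)) * (9 + 2 * (m : ℝ) - 1) / 2 := by
    rw [Nat.cast_choose_two]
    push_cast
    ring
  have hmR : (200 : ℝ) ≤ m := by
    have : 200 ≤ m := by omega
    exact_mod_cast this
  have hσ0 : (0 : ℝ) ≤ σ := Nat.cast_nonneg σ
  have hσ5 : (σ : ℝ) ≤ 5 := by exact_mod_cast hσ
  set C : ℝ := (((9 + 2 * m).choose 2 : ℕ) : ℝ) with hCdef
  have hC0 : 0 ≤ C := Nat.cast_nonneg _
  clear hN hequiv hall hσdef hCdef hlow hσ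
  clear_value C σ
  clear hm
  clear_value m
  have habs : |((σ : ℝ) - 1) * C| ≤ 4 * C := by
    rw [abs_le]
    constructor <;> nlinarith
  have h2 := (abs_le.1 h1).2
  have h3 : ((σ : ℝ) - 1) * C ≤ 4 * C := by nlinarith
  have h4 : (E : ℝ) ≤ 17 / 4 * C := by linarith
  rw [hC] at h4
  nlinarith

end Pool.Agent.S09674
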