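import Pool.Statements.S09705
import Pool.Agent.Lib.MP_7e4769_co.Hc.Final

set_option autoImplicit false
open Pool Pool.MP_7e4769_co

namespace Pool.Agent.S09705

/-- For every finite 3-regular simple graph: if some proper colouring gives every vertex exactly 2 distinct colours on its neighbours, then such a colouring exists using at most 4 colours. -/
theorem result :
    ∀ (V : Type) [Fintype V] (G : SimpleGraph V) [DecidableRel G.Adj],
      G.IsRegularOfDegree 3 →
      (∃ c : V → ℕ, (∀ u v : V, G.Adj u v → c u ≠ c v) ∧
          ∀ v : V, ((G.neighborFinset v).image c).card = 2) →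
      ∃ c : V → Fin 4, (∀ u v : V, G.Adj u v → c u ≠ c v) ∧
          ∀ v : V, ((G.neighborFinset v).image c).card = 2 :=
  fun V _ G _ => Pool.Agent.Hom2.TStep.top V G (Pool.Agent.Hom2.tstep V)

end Pool.Agent.S09705
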