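import Pool.Statements.S09877
import Pool.Agent.Lib.MP_86319c_co.Main
import Pool.Agent.Lib.MP_86319c_co.Conv

set_option autoImplicit false
open Pool Pool.MP_86319c_co

namespace Pool.Agent.S09877

/-- For all k,l ≥ 2 there is p such that every planar set of at least p points, no three collinear, contains disjoint K,L of sizes k,l where no line through two points of one meets the hull of the other, and hull(K∪L) contains no other point. -/
theorem result :
    ∀ k l : ℕ, 2 ≤ k → 2 ≤ l →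
      ∃ p : ℕ, ∀ A : Finset (EuclideanSpace ℝ (Fin 2)),
        p ≤ A.card →
        (∀ x ∈ A, ∀ y ∈ A, ∀ z ∈ A, x ≠ y → y ≠ z → x ≠ z →
          ¬ Collinear ℝ ({x, y, z} : Set (EuclideanSpace ℝ (Fin 2)))) →
        ∃ K L : Finset (EuclideanSpace ℝ (Fin 2)),
          K ⊆ A ∧ L ⊆ A ∧ Disjoint K L ∧ K.card = k ∧ L.card = l ∧
          (∀ a ∈ K, ∀ b ∈ K, a ≠ b →
            ((affineSpan ℝ ({a, b} : Set (EuclideanSpace ℝ (Fin 2))) :
                Set (EuclideanSpace ℝ (Fin 2))) ∩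
              convexHull ℝ (L : Set (EuclideanSpace ℝ (Fin 2)))) = ∅) ∧
          (∀ a ∈ L, ∀ b ∈ L, a ≠ b →
            ((affineSpan ℝ ({a, b} : Set (EuclideanSpace ℝ (Fin 2))) :
                Set (EuclideanSpace ℝ (Fin 2))) ∩
              convexHull ℝ (K : Set (EuclideanSpace ℝ (Fin 2)))) = ∅) ∧
          (∀ x ∈ A, x ∉ K ∪ L →
            x ∉ convexHull ℝ ((K ∪ L : Finset (EuclideanSpace ℝ (Fin 2))) :
              Set (EuclideanSpace ℝ (Fin 2)))) := by
  intro k l hk _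
  obtain ⟨n0, hn0⟩ := Pool.Agent.Lib.MP_86319c_co.exists_KL (ι := EuclideanSpace ℝ (Fin 2)) k l hk
  refine ⟨n0, fun A hA hcol => ?_⟩
  obtain ⟨K, L, hd, hK, hL, hI, h1, h2⟩ := hn0 A _ _
    (Pool.Agent.Lib.MP_86319c_co.gp_of_not_collinear A hcol) hA
  refine ⟨K, L, fun a ha => hI.1 (Finset.mem_union_left _ ha),
    fun a ha => hI.1 (Finset.mem_union_right _ ha), hd, hK, hL,
    Pool.Agent.Lib.MP_86319c_co.span_inter_hull_of_avoid K L h1,
    Pool.Agent.Lib.MP_86319c_co.span_inter_hull_of_avoid L K h2, fun x hx hxn hxc => hxn ?_⟩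
  exact hI.2 x hx (Pool.Agent.Lib.MP_86319c_co.inH_of_mem_convexHull _ x hxc)

end Pool.Agent.S09877
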