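import Pool.Statements.S10344
import Pool.Agent.Lib.MP_9a49d2_co.Main

set_option autoImplicit false
open MeasureTheory
open Pool Pool.MP_9a49d2_co

namespace Pool.Agent.S10344

/-- The negation of the preceding statement: For every compact convex plane set K with nonempty interior, every covering of the plane by isometric copies of K has lower density at least area(K) divided by the largest area of a hexagon inside K. -/
theorem result :
    ¬ (∀ K : Set (EuclideanSpace ℝ (Fin 2)),
      Convex ℝ K → IsCompact K → (interior K).Nonempty →
      ∀ (ι : Type) (g : ι → IsometryEquiv (EuclideanSpace ℝ (Fin 2)) (EuclideanSpace ℝ (Fin 2))),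
        (⋃ i, (g i) '' K) = Set.univ →
        volume K /
            (⨆ (p : Fin 6 → EuclideanSpace ℝ (Fin 2)) (_ : ∀ j, p j ∈ K),
              volume (convexHull ℝ (Set.range p)))
          ≤ Filter.liminf
              (fun r : ℝ =>
                (∑' i : {i : ι // (g i) '' K ⊆ Metric.ball (0 : EuclideanSpace ℝ (Fin 2)) r},
                    volume ((g i.1) '' K))
                  / volume (Metric.ball (0 : EuclideanSpace ℝ (Fin 2)) r))
              Filter.atTop) := by
  intro h
  have h1 := h Lib.MP_9a49d2_co.KE Lib.MP_9a49d2_co.KE_convex Lib.MP_9a49d2_co.KE_compact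
    Lib.MP_9a49d2_co.KE_interior _ Lib.MP_9a49d2_co.gE Lib.MP_9a49d2_co.gE_cover
  refine absurd (h1.trans Lib.MP_9a49d2_co.liminf_le) (not_le.mpr ?_)
  refine Lib.MP_9a49d2_co.strict.trans_le (ENNReal.div_le_div_left ?_ _)
  exact iSup₂_le Lib.MP_9a49d2_co.hexE

end Pool.Agent.S10344
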