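import Pool.Statements.S10745
import Pool.Agent.Lib.MP_ac7d6b_co.Main

set_option autoImplicit false
open Pool Pool.MP_ac7d6b_co

namespace Pool.Agent.S10745

/-- There is a constant c such that for all d ≥ 2, every Delone set in R^d with covering radius R whose ρ-clusters are all congruent, for some ρ > c·d²·log d·R, is a regular system (its symmetry group is transitive). -/
theorem result :
    ∃ c : ℝ, ∀ d : ℕ, 2 ≤ d → ∀ R : ℝ, 0 < R → ∀ ρ : ℝ,
      c * ((d : ℝ) ^ 2 * Real.log (d : ℝ)) * R < ρ →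
      ∀ X : Set (EuclideanSpace ℝ (Fin d)),
        (∃ r : ℝ, 0 < r ∧ ∀ x ∈ X, ∀ y ∈ X, x ≠ y → r ≤ dist x y) →
        (∀ p : EuclideanSpace ℝ (Fin d), ∃ x ∈ X, dist p x ≤ R) →
        (∀ x ∈ X, ∀ y ∈ X, ∃ g : EuclideanSpace ℝ (Fin d) ≃ᵢ EuclideanSpace ℝ (Fin d),
            g x = y ∧ g '' (X ∩ Metric.closedBall x ρ) = X ∩ Metric.closedBall y ρ) →
        ∀ x ∈ X, ∀ y ∈ X, ∃ g : EuclideanSpace ℝ (Fin d) ≃ᵢ EuclideanSpace ℝ (Fin d),
            g x = y ∧ g '' X = X := by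
  refine ⟨30, fun d hd R hR ρ hρ X hsep hcov hiso x hx y hy => ?_⟩
  obtain ⟨r, hr0, hr⟩ := hsep
  have hdim : Module.finrank ℝ (EuclideanSpace ℝ (Fin d)) = d := by simp
  have hd2 : (2 : ℝ) ≤ d := by exact_mod_cast hd
  have hlog : (1 / 2 : ℝ) ≤ Real.log (d : ℝ) := by
    have h1 := Real.log_le_log (by norm_num) hd2
    have h2 := Real.log_two_gt_d9
    linarith
  obtain ⟨f, hf1, hf2⟩ := Pool.Agent.Lib.MP_ac7d6b_co.regular (X := X) (ρ := ρ) hr0 hR
    (fun a ha b hb hab => by rw [← dist_eq_norm]; exact hr a ha b hb hab)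
    (fun p => by
      obtain ⟨a, ha, hpa⟩ := hcov p
      exact ⟨a, ha, by rw [← dist_eq_norm]; exact hpa⟩)
    (by rw [hdim]; omega)
    (by
      rw [hdim]
      refine le_trans (mul_le_mul_of_nonneg_right ?_ hR.le) hρ.le
      have h1 : (d : ℝ) ^ 2 * (1 / 2) ≤ (d : ℝ) ^ 2 * Real.log (d : ℝ) :=
        mul_le_mul_of_nonneg_left hlog (by positivity)
      nlinarith)
    (fun a ha b hb => by
      obtain ⟨g, hg1, hg2⟩ := hiso a ha b hb
      refine ⟨g.toRealAffineIsometryEquiv, hg1, fun p hp hpa => ?_, fun p hp hpa => ?_⟩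
      · have : g p ∈ X ∩ Metric.closedBall b ρ := by
          rw [← hg2]
          exact ⟨p, ⟨hp, by rw [Metric.mem_closedBall, dist_eq_norm]; exact hpa⟩, rfl⟩
        exact this.1
      · have hpb : p ∈ X ∩ Metric.closedBall b ρ :=
          ⟨hp, by rw [Metric.mem_closedBall, dist_eq_norm, ← hg1]; exact hpa⟩
        rw [← hg2] at hpb
        obtain ⟨q, hq, rfl⟩ := hpb
        have : g.toRealAffineIsometryEquiv⁻¹ (g q) = q :=
          Pool.Agent.Lib.MP_ac7d6b_co.inv_app g.toRealAffineIsometryEquiv q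
        rw [this]
        exact hq.1)
    hx hy
  exact ⟨f.toIsometryEquiv, hf1, hf2⟩

end Pool.Agent.S10745
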