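import Pool.Statements.S11019
import Pool.Agent.Lib.MP_b89653_co.Main

set_option autoImplicit false
open Pool Pool.MP_b89653_co

namespace Pool.Agent.S11019

/-- For every r there is m such that every edge colouring of K_n whose vertices see on average at most r colours admits a partition of the vertices into at most m monochromatic cycles (empty, single vertex, single edge allowed). -/
theorem result :
    ∀ r : ℕ, ∃ m : ℕ, ∀ n : ℕ, ∀ c : Fin n → Fin n → ℕ,
      (∀ u v, c u v = c v u) →
      (∑ v : Fin n, ((Finset.univ.erase v).image (c v)).card ≤ r * n) →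
      ∃ k : ℕ, k ≤ m ∧ ∃ C : Fin k → List (Fin n),
        (∀ j : Fin k, (C j).Nodup ∧
          ∃ col : ℕ, ∀ i : ℕ, ∀ a b : Fin n,
            (C j)[i]? = some a →
            (C j)[(i + 1) % (C j).length]? = some b →
            a ≠ b → c a b = col) ∧
        (∀ v : Fin n, ∃! j : Fin k, v ∈ C j) := by
  exact Pool.Agent.Lib.MP_b89653_co.mean_partition

end Pool.Agent.S11019
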