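import Pool.Statements.S12139
import Pool.Agent.Lib.MP_e7a55d_co.Main

set_option autoImplicit false
open Pool Pool.MP_e7a55d_co

namespace Pool.Agent.S12139

/-- For every finite graph F containing a cycle there is c such that for every r some finite graph G has chromatic number above r, the same girth as F, and every induced subgraph of G with no induced copy of F has chromatic number at most c. -/
theorem result :
    ∀ (m : ℕ) (F : SimpleGraph (Fin m)), ¬ F.IsAcyclic →
      ∃ c : ℕ, ∀ r : ℕ, ∃ (n : ℕ) (G : SimpleGraph (Fin n)),
        (r : ℕ∞) < G.chromaticNumber ∧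
        G.egirth = F.egirth ∧
        ∀ S : Set (Fin n), IsEmpty (F ↪g G.induce S) →
          (G.induce S).chromaticNumber ≤ (c : ℕ∞) := by
  exact Pool.Agent.Lib.MP_e7a55d_co.main

end Pool.Agent.S12139
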