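import Pool.Statements.S12161
import Pool.Agent.Lib.MP_e850aa_co.NonLin

set_option autoImplicit false
open Pool Pool.MP_e850aa_co
open Pool.Agent.Lib.MP_e850aa_co

namespace Pool.Agent.S12161

/-- Some matroid on a finite set has its rank function equal to the dealer-normalized entropy of an ideal secret sharing scheme, yet is not the matroid of any ideal linear scheme (uniform on K^n, linear shares) over any finite field K. -/
theorem result :
    ∃ (Q : Type) (_ : Fintype Q) (_ : DecidableEq Q) (M : Matroid Q),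
      M.E = Set.univ ∧
      (∃ (D : Q) (m : ℕ) (p : Fin m → ℝ) (π : Q → Fin m → ℕ),
        (∀ x, 0 ≤ p x) ∧ (∑ x, p x = 1) ∧
        0 < -∑ x : Fin m, p x * Real.log
              (∑ y ∈ Finset.univ.filter (fun y => ∀ i ∈ ({D} : Finset Q), π i y = π i x), p y) ∧
        (∃ j : Q, j ≠ D ∧
          -∑ x : Fin m, p x * Real.log
              (∑ y ∈ Finset.univ.filter (fun y => ∀ i ∈ ({j} : Finset Q), π i y = π i x), p y)
          = -∑ x : Fin m, p x * Real.log
              (∑ y ∈ Finset.univ.filter (fun y => ∀ i ∈ ({D} : Finset Q), π i y = π i x), p y)) ∧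
        ∀ X : Finset Q,
          -∑ x : Fin m, p x * Real.log
              (∑ y ∈ Finset.univ.filter (fun y => ∀ i ∈ X, π i y = π i x), p y)
          = ((M.eRk (↑X : Set Q)).toNat : ℝ) *
            (-∑ x : Fin m, p x * Real.log
              (∑ y ∈ Finset.univ.filter (fun y => ∀ i ∈ ({D} : Finset Q), π i y = π i x), p y))) ∧
      ¬ (∃ (D : Q) (K : Type) (_ : Field K) (_ : Fintype K) (n : ℕ)
          (U : Q → Submodule K (Fin n → K)),
          Module.finrank K (U D) < n ∧
          (∃ j : Q, j ≠ D ∧ Module.finrank K (U j) = Module.finrank K (U D)) ∧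
          ∀ X : Finset Q,
            n - Module.finrank K (↥(⨅ i ∈ X, U i))
              = (M.eRk (↑X : Set Q)).toNat * (n - Module.finrank K (U D))) := by
  classical
  obtain ⟨C, _, _, hC⟩ : ∃ (C : Type) (_ : DecidableEq C) (_ : Fintype C), 23 ≤ Fintype.card C :=
    ⟨Fin 23, inferInstance, inferInstance, by simp⟩
  have : Nontrivial C := Fintype.one_lt_card_iff_nontrivial.1 (by omega)
  obtain ⟨F, _, _, _, hF⟩ : ∃ (F : Type) (_ : Field F) (_ : CharP F 2) (_ : Fintype F),
      Fintype.card (Finset (Vx C) × (Finset (Finset (Ix C)) × Finset (Vx C))) + 1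
        < Fintype.card F := by
    generalize Fintype.card (Finset (Vx C) × (Finset (Finset (Ix C)) × Finset (Vx C))) = m
    have : Fact (Nat.Prime 2) := ⟨Nat.prime_two⟩
    let _ : Fintype (GaloisField 2 (m + 1)) := Fintype.ofFinite _
    refine ⟨GaloisField 2 (m + 1), inferInstance, inferInstance, inferInstance, ?_⟩
    rw [← Nat.card_eq_fintype_card, GaloisField.card 2 (m + 1) (by omega)]
    exact Nat.lt_two_pow_self
  obtain ⟨L, hL⟩ := exists_gen hF
  obtain ⟨κ, _, Bc, hB, hbrk⟩ := exists_pieces hC hL.1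
  have h0 : (gs fun _ => False : Finset (Qx C)) = ∅ := by simp [gs]
  exact ⟨Qx C, inferInstance, inferInstance,
    final (sys_model hL hB hbrk) Fintype.one_lt_card indx_empty indx_subset
      (indx_det hL hB hbrk) (Sum.inr (Sum.inl none)) (Sum.inr (Sum.inr none)) (by simp)
      (h0 ▸ not_det_vx _ _) (h0 ▸ not_det_vx _ _) (not_linLike hL.1 hB)⟩

end Pool.Agent.S12161
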