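import Pool.Statements.S12313
import Pool.Agent.Lib.MP_efe3d7_co.J.Hk
import Pool.Agent.Lib.MP_efe3d7_co.J.DZ
import Pool.Agent.Lib.MP_efe3d7_co.J.WZ
import Pool.Agent.Lib.MP_efe3d7_co.J.Clu
import Pool.Agent.Lib.MP_efe3d7_co.D.All

set_option autoImplicit false
open Pool Pool.MP_efe3d7_co

namespace Pool.Agent.S12313

/-- For every 3-connected graph G on n vertices and every real x > 1 below the first root above 1 of the chromatic polynomial of K_{3,4} (about 1.781), (−1)^n times the chromatic polynomial of G at x is positive. -/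
theorem result :
    ∀ (n : ℕ) (G : SimpleGraph (Fin n)) [DecidableRel G.Adj],
      4 ≤ n →
      (∀ S : Finset (Fin n), S.card ≤ 2 →
        (G.induce ((↑S : Set (Fin n))ᶜ)).Connected) →
      ∀ x : ℝ, 1 < x →
        (∀ y : ℝ, 1 < y → y ≤ x →
          y * (y - 1) ^ 4 + 3 * y * (y - 1) * (y - 2) ^ 4
            + y * (y - 1) * (y - 2) * (y - 3) ^ 4 ≠ 0) →
        0 < (-1 : ℝ) ^ n * ∑ T ∈ G.edgeFinset.powerset,
          (-1 : ℝ) ^ T.card *
            x ^ Nat.card (SimpleGraph.fromEdgeSet (↑T : Set (Sym2 (Fin n)))).ConnectedComponent := by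
  intro n G _ hn hG x h1 h2
  exact Lib.MP_efe3d7_co.J.main_of (fun _ _ h k => ⟨Lib.MP_efe3d7_co.D.roots h k,
    fun _ _ => Lib.MP_efe3d7_co.J.fans_red h, Lib.MP_efe3d7_co.J.win_all h k,
    Lib.MP_efe3d7_co.J.clu h k⟩) n G hn hG x h1 h2

end Pool.Agent.S12313
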