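import Pool.Statements.S12493
import Pool.Agent.Lib.MP_f8e628_co.Final

set_option autoImplicit false
open Pool Pool.MP_f8e628_co

namespace Pool.Agent.S12493

/-- For every ε>0 there is T such that for all t≥T, every 3-uniform hypergraph without repeated edges and with max degree at most t has its edges partitioned into at most (3/2+ε)t matchings. -/
theorem result :
    ∀ ε : ℝ, 0 < ε → ∃ T : ℕ, ∀ t : ℕ, T ≤ t →
      ∀ (V : Type) [Fintype V] [DecidableEq V] (H : Finset (Finset V)),
        (∀ e ∈ H, e.card = 3) →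
        (∀ v : V, (H.filter (fun e => v ∈ e)).card ≤ t) →
        ∃ k : ℕ, (k : ℝ) ≤ (3 / 2 + ε) * (t : ℝ) ∧
          ∃ c : Finset V → Fin k,
            ∀ e ∈ H, ∀ f ∈ H, e ≠ f → c e = c f → Disjoint e f :=
  Pool.Agent.Lib.MP_f8e628_co.alon_kim_three

end Pool.Agent.S12493
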