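import Pool.Statements.S12690
import Pool.Agent.Lib.MP_068a93_gt.Levels

set_option autoImplicit false
open TopologicalSpace Topology
open scoped Topology
open Pool Pool.MP_068a93_gt

namespace Pool.Agent.S12690

/-- The negation of the preceding statement: Defining D as Čech–Lebesgue covering dimension ≤ k, for every n>2 there is a separable metrizable X of covering dimension m and a finite-dimensional metrizable compact Hausdorff dense embedding c:X→K such that every metrizable compactification d:X→L with a continuous f:K→L, f∘c=d, has dim L ≥ n+m. -/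
theorem result :
    ¬ (∀ D : (S : Type) → TopologicalSpace S → ℕ → Prop,
    (∀ (S : Type) (t : TopologicalSpace S) (k : ℕ), D S t k ↔
      ∀ (j : ℕ) (U : Fin j → Set S), (∀ i, IsOpen[t] (U i)) → (⋃ i, U i) = Set.univ →
        ∃ V : Fin j → Set S, (∀ i, IsOpen[t] (V i)) ∧ (∀ i, V i ⊆ U i) ∧
          (⋃ i, V i) = Set.univ ∧
          ∀ x : S, Set.ncard {i : Fin j | x ∈ V i} ≤ k + 1) →
    ∀ n : ℕ, 2 < n →
      ∃ (X : Type) (_ : TopologicalSpace X), MetrizableSpace X ∧ SeparableSpace X ∧
        ∃ m : ℕ, D X inferInstance m ∧ (∀ k < m, ¬ D X inferInstance k) ∧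
        ∃ (K : Type) (_ : TopologicalSpace K), CompactSpace K ∧ T2Space K ∧
          MetrizableSpace K ∧ (∃ N : ℕ, D K inferInstance N) ∧
          ∃ c : X → K, IsEmbedding c ∧ DenseRange c ∧
            ∀ (L : Type) (_ : TopologicalSpace L), CompactSpace L → T2Space L →
              MetrizableSpace L → ∀ d : X → L, IsEmbedding d → DenseRange d →
              (∃ f : K → L, Continuous f ∧ f ∘ c = d) →
              ∀ k < n + m, ¬ D L inferInstance k) := by
  intro H
  obtain ⟨X, tX, hXm, hXs, m, hDX, -, K, tK, hKc, hKt, hKm, -, c, hc, hcd, hall⟩ :=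
    H (fun S t k => @Pool.Agent.Lib.MP_068a93_gt.CovDim S t k) (fun S t k => Iff.rfl) 3
      (by norm_num)
  let _ : MetricSpace K := TopologicalSpace.metrizableSpaceMetric K
  have : Countable (ℕ ×ₗ ℕ) := inferInstanceAs (Countable (ℕ × ℕ))
  obtain ⟨F, hF, hfib, hdim⟩ :=
    Pool.Agent.Lib.MP_068a93_gt.exists_map (K := K) hDX hc.isInducing
  have hLc : CompactSpace (Set.range F) := isCompact_iff_compactSpace.1 (isCompact_range hF)
  let f : K → Set.range F := Set.rangeFactorization F
  have hf : Continuous f := hF.subtype_mk _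
  have hfs : Function.Surjective f := Set.rangeFactorization_surjective
  have hfib' : ∀ x z, f z = f (c x) → z = c x := fun x z e =>
    hfib x z (congrArg Subtype.val e)
  refine hall (Set.range F) inferInstance hLc inferInstance inferInstance (f ∘ c) ?_ ?_
    ⟨f, hf, rfl⟩ (m + 2) (by omega) hdim
  · refine ⟨?_, fun x y e => hc.injective (hfib' y (c x) e)⟩
    rw [isInducing_iff_nhds]
    intro x
    refine le_antisymm ((hf.comp hc.continuous).tendsto x).le_comap ?_
    intro s hs
    rw [hc.isInducing.nhds_eq_comap, Filter.mem_comap] at hs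
    obtain ⟨t, ht, hts⟩ := hs
    obtain ⟨O, hOt, hO, hxO⟩ := mem_nhds_iff.1 ht
    refine Filter.mem_comap.2 ⟨(f '' Oᶜ)ᶜ, ?_, ?_⟩
    · refine ((hO.isClosed_compl.isCompact.image hf).isClosed.isOpen_compl).mem_nhds ?_
      rintro ⟨z, hz, e⟩
      exact hz (hfib' x z e ▸ hxO)
    · intro y hy
      refine hts (hOt ?_)
      by_contra hcon
      exact hy ⟨c y, hcon, rfl⟩
  · exact hfs.denseRange.comp hcd hf

end Pool.Agent.S12690
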