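import Pool.Statements.S12981
import Pool.Agent.Lib.MP_318f17_gt.Main

set_option autoImplicit false
open Pool Pool.MP_318f17_gt

namespace Pool.Agent.S12981

/-- For every infinite compact Hausdorff space X there is a compact Hausdorff space Y with an injective convergent sequence such that C_p(X) and C_p(Y) (continuous real functions, pointwise topology) are homeomorphic. -/
theorem result :
  ∀ (X : Type) [TopologicalSpace X] [CompactSpace X] [T2Space X], Infinite X →
    ∃ (Y : Type) (_ : TopologicalSpace Y), CompactSpace Y ∧ T2Space Y ∧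
      (∃ (s : ℕ → Y) (y : Y), Function.Injective s ∧
          Filter.Tendsto s Filter.atTop (nhds y)) ∧
      ∃ e : C(X, ℝ) ≃ C(Y, ℝ),
        @Continuous C(X, ℝ) C(Y, ℝ)
          (TopologicalSpace.induced (fun g : C(X, ℝ) => (g : X → ℝ)) inferInstance)
          (TopologicalSpace.induced (fun g : C(Y, ℝ) => (g : Y → ℝ)) inferInstance)
          e ∧
        @Continuous C(Y, ℝ) C(X, ℝ)
          (TopologicalSpace.induced (fun g : C(Y, ℝ) => (g : Y → ℝ)) inferInstance)
          (TopologicalSpace.induced (fun g : C(X, ℝ) => (g : X → ℝ)) inferInstance)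
          e.symm := by
  intro X _ _ _ hinf
  by_cases hX : Pool.Agent.Lib.MP_318f17_gt.NoSeq X
  · obtain ⟨R⟩ := Pool.Agent.Lib.MP_318f17_gt.exists_rows hX
    refine ⟨X ⊕ OnePoint ℕ, inferInstance, inferInstance, inferInstance,
      ⟨fun n => Sum.inr (n : OnePoint ℕ), Sum.inr OnePoint.infty,
        Sum.inr_injective.comp OnePoint.coe_injective, ?_⟩, R.equiv, ?_, ?_⟩
    · exact (OnePoint.continuous_iff_from_nat
        (fun a => (Sum.inr a : X ⊕ OnePoint ℕ))).1 continuous_inr
    · exact Pool.Agent.Lib.MP_318f17_gt.continuous_induced_of _ fun t h a =>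
        @Pool.Agent.Lib.MP_318f17_gt.Rows.continuous_equiv X _ R _ t (fun f => f) h a
    · exact Pool.Agent.Lib.MP_318f17_gt.continuous_induced_of _ fun t h a =>
        @Pool.Agent.Lib.MP_318f17_gt.Rows.continuous_equiv_symm X _ R _ t (fun f => f) h a
  · exact ⟨X, inferInstance, inferInstance, inferInstance, not_not.1 hX, Equiv.refl _,
      @continuous_id _ (_), @continuous_id _ (_)⟩

end Pool.Agent.S12981
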