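import Pool.Statements.S13467
import Pool.Agent.Lib.MP_813774_gt.Main

set_option autoImplicit false
open Pool Pool.MP_813774_gt

namespace Pool.Agent.S13467

/-- For every n≥2 there is a time-oriented Lorentz metric on the configuration space of n unordered points in the disk such that a nontrivial braid is positive exactly when some future time-like piecewise smooth loop at the base point represents it. -/
theorem result :
  ∀ n : ℕ, 2 ≤ n →
  ∃ (g : (Fin n → ℂ) → (Fin n → ℂ) →L[ℝ] (Fin n → ℂ) →L[ℝ] ℝ)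
    (T : (Fin n → ℂ) → (Fin n → ℂ)),
    ContDiffOn ℝ ((⊤ : ℕ∞) : WithTop ℕ∞) g
      {f : Fin n → ℂ | Function.Injective f ∧ ∀ m, ‖f m‖ < 1} ∧
    ContinuousOn T {f : Fin n → ℂ | Function.Injective f ∧ ∀ m, ‖f m‖ < 1} ∧
    (∀ x : Fin n → ℂ, Function.Injective x → (∀ m, ‖x m‖ < 1) →
      ∀ v w : Fin n → ℂ, g x v w = g x w v) ∧
    (∀ x : Fin n → ℂ, Function.Injective x → (∀ m, ‖x m‖ < 1) →
      ∀ ρ : Equiv.Perm (Fin n), ∀ v w : Fin n → ℂ,
        g (fun m => x (ρ m)) (fun m => v (ρ m)) (fun m => w (ρ m)) = g x v w) ∧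
    (∀ x : Fin n → ℂ, Function.Injective x → (∀ m, ‖x m‖ < 1) →
      ∀ ρ : Equiv.Perm (Fin n), T (fun m => x (ρ m)) = fun m => T x (ρ m)) ∧
    (∀ x : Fin n → ℂ, Function.Injective x → (∀ m, ‖x m‖ < 1) →
      g x (T x) (T x) < 0 ∧
      ∀ v : Fin n → ℂ, v ≠ 0 → g x (T x) v = 0 → 0 < g x v v) ∧
    ∀ (P q : {f : Fin n → ℂ // Function.Injective f ∧ ∀ m, ‖f m‖ < 1}),
      (∀ m : Fin n, P.1 m = (((2 * ((m : ℕ) : ℝ) + 1) / (n : ℝ) - 1 : ℝ) : ℂ)) →
      (∃ ρ : Equiv.Perm (Fin n), ∀ m, q.1 m = P.1 (ρ m)) →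
      ∀ c : Path P q,
        (¬ ∃ d : Path P q, d.Homotopic c ∧ ∀ t, d t = P) →
        ((∃ Γ : Path P q, Γ.Homotopic c ∧ ∃ k : ℕ, 1 ≤ k ∧ ∀ j : ℕ, j < k →
            ∃ i : ℕ, i + 1 < n ∧ ∃ ρ : Equiv.Perm (Fin n),
              ∀ (t : unitInterval) (s : ℝ), 0 ≤ s → s ≤ 1 →
                (t : ℝ) = ((j : ℝ) + s) / (k : ℝ) →
                ∀ m : Fin n, (Γ t).1 m =
                  if ((ρ m : ℕ)) = i then
                    (((2 * (i : ℝ) + 2) / (n : ℝ) - 1 : ℝ) : ℂ)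
                      - ((1 / (n : ℝ) : ℝ) : ℂ) *
                        Complex.exp ((Real.pi : ℂ) * (s : ℂ) * Complex.I)
                  else if ((ρ m : ℕ)) = i + 1 then
                    (((2 * (i : ℝ) + 2) / (n : ℝ) - 1 : ℝ) : ℂ)
                      + ((1 / (n : ℝ) : ℝ) : ℂ) *
                        Complex.exp ((Real.pi : ℂ) * (s : ℂ) * Complex.I)
                  else (((2 * ((ρ m : ℕ) : ℝ) + 1) / (n : ℝ) - 1 : ℝ) : ℂ)) ↔
         (∃ d : Path P q, d.Homotopic c ∧ ∃ (k : ℕ) (τ : ℕ → ℝ),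
            τ 0 = 0 ∧ τ k = 1 ∧ ∀ j : ℕ, j < k →
              τ j < τ (j + 1) ∧
              ContDiffOn ℝ ((⊤ : ℕ∞) : WithTop ℕ∞) (fun t : ℝ => (d.extend t).1)
                (Set.Icc (τ j) (τ (j + 1))) ∧
              ∀ t ∈ Set.Icc (τ j) (τ (j + 1)),
                g ((d.extend t).1)
                  (derivWithin (fun t : ℝ => (d.extend t).1) (Set.Icc (τ j) (τ (j + 1))) t)
                  (derivWithin (fun t : ℝ => (d.extend t).1) (Set.Icc (τ j) (τ (j + 1))) t) < 0 ∧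
                g ((d.extend t).1)
                  (derivWithin (fun t : ℝ => (d.extend t).1) (Set.Icc (τ j) (τ (j + 1))) t)
                  (T ((d.extend t).1)) < 0)) := by
  intro n hn
  refine ⟨Pool.Agent.Lib.MP_813774_gt.gL n, Pool.Agent.Lib.MP_813774_gt.Rot,
    Pool.Agent.Lib.MP_813774_gt.contDiffOn_gL, ?_, ?_, ?_, ?_, ?_, ?_⟩
  · refine Continuous.continuousOn (continuous_pi fun m => ?_)
    exact continuous_const.mul (continuous_apply m)
  · intro x _ _ v w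
    exact Pool.Agent.Lib.MP_813774_gt.Gf_symm x v w
  · intro x _ _ ρ v w
    exact Pool.Agent.Lib.MP_813774_gt.Gf_perm ρ x v w
  · intro x _ _ ρ
    rfl
  · intro x hx _
    refine ⟨?_, fun v hv h => Pool.Agent.Lib.MP_813774_gt.Gf_pos hn x hx v hv h⟩
    rw [Pool.Agent.Lib.MP_813774_gt.gL_apply, Pool.Agent.Lib.MP_813774_gt.Gf_Rot x hx,
      Pool.Agent.Lib.MP_813774_gt.Om_Rot]
    have := Pool.Agent.Lib.MP_813774_gt.Wt_pos hn x hx
    exact neg_neg_of_pos (mul_pos this this)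
  · rintro P q hP ⟨π₀, hq⟩ c hnt
    have hP' : P.1 = Pool.Agent.Lib.MP_813774_gt.basePt n 1 := funext fun m => hP m
    have hq' : q.1 = Pool.Agent.Lib.MP_813774_gt.basePt n π₀ := funext fun m => by
      rw [hq m, hP]; rfl
    constructor
    · rintro ⟨Γ, hΓ, k, hk, h⟩
      exact ⟨Γ, hΓ, Pool.Agent.Lib.MP_813774_gt.timelike_of_word hn Γ k hk h⟩
    · rintro ⟨d, hd, k, τ, h0, h1, h⟩
      obtain ⟨k', F, _, hj, Γ, hΓ, hh⟩ :=
        Pool.Agent.Lib.MP_813774_gt.isPos_of_timelike hn hP' π₀ hq' d k τ h0 h1 h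
      rcases Nat.eq_zero_or_pos k' with rfl | hk'
      · exfalso
        refine hnt ⟨Γ, hh.trans hd, fun t => ?_⟩
        rw [hΓ, ← Γ.source, hΓ]
        simp
      · refine ⟨Γ, hh.trans hd, k', hk', fun j hjk => ?_⟩
        obtain ⟨i, hi, ρ, hρ⟩ := hj j hjk
        refine ⟨i, hi, ρ, fun t s hs0 hs1 ht m => ?_⟩
        have hk0 : (k' : ℝ) ≠ 0 := by exact_mod_cast hk'.ne'
        have e : (k' : ℝ) * t = j + s := by rw [ht]; field_simp
        rw [hΓ, e, hρ s hs0 hs1]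
        rfl

end Pool.Agent.S13467
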