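import Pool.Statements.S13593
import Pool.Agent.Lib.MP_947c47_gt.Main

set_option autoImplicit false
open Pool Pool.MP_947c47_gt

namespace Pool.Agent.S13593

/-- If the boundary of a convex body in 3-space meets every isometric copy of itself in an empty or connected set, then the body is the set of points within some distance r>0 of a segment (a ball if the segment is a point). -/
theorem result :
    ∀ K : Set (EuclideanSpace ℝ (Fin 3)),
      Convex ℝ K → IsCompact K → (interior K).Nonempty →
      (∀ f : EuclideanSpace ℝ (Fin 3) ≃ᵢ EuclideanSpace ℝ (Fin 3),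
        frontier K ∩ f '' (frontier K) = ∅ ∨
          IsConnected (frontier K ∩ f '' (frontier K))) →
      ∃ a b : EuclideanSpace ℝ (Fin 3), ∃ r : ℝ, 0 < r ∧
        K = {x | Metric.infDist x (segment ℝ a b) ≤ r} := by
  intro K h1 h2 h3 h4
  exact Pool.Agent.Lib.MP_947c47_gt.sausage ⟨h1, h2, h3⟩ h4

end Pool.Agent.S13593
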