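import Pool.Statements.S14033
import Pool.Agent.Lib.MP_d88725_gt.Main

set_option autoImplicit false
open Pool Pool.MP_d88725_gt

namespace Pool.Agent.S14033

/-- Some polyhedral realization in 3-space of the 7-vertex torus triangulation (Császár torus) is, for every ε>0, uniformly ε-close to a smooth immersed torus with the two-piece property (i.e. a tight smooth torus). -/
theorem result :
    ∀ F : Set (Finset (Fin 7)),
      F = Set.range (fun i : Fin 7 => ({i, i + 1, i + 3} : Finset (Fin 7))) ∪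
          Set.range (fun i : Fin 7 => ({i, i + 2, i + 3} : Finset (Fin 7))) →
      ∃ v : Fin 7 → EuclideanSpace ℝ (Fin 3),
        (∀ σ ∈ F, AffineIndependent ℝ (fun k : (σ : Set (Fin 7)) => v k)) ∧
        (∀ σ ∈ F, ∀ τ ∈ F,
          convexHull ℝ (v '' (σ : Set (Fin 7))) ∩ convexHull ℝ (v '' (τ : Set (Fin 7))) =
            convexHull ℝ (v '' ((σ ∩ τ : Finset (Fin 7)) : Set (Fin 7)))) ∧
        ∃ g : AddCircle (1 : ℝ) × AddCircle (1 : ℝ) → EuclideanSpace ℝ (Fin 3),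
          Continuous g ∧ Function.Injective g ∧
          Set.range g = ⋃ σ ∈ F, convexHull ℝ (v '' (σ : Set (Fin 7))) ∧
          ∀ ε : ℝ, 0 < ε →
            ∃ f : AddCircle (1 : ℝ) × AddCircle (1 : ℝ) → EuclideanSpace ℝ (Fin 3),
              ContDiff ℝ (⊤ : ℕ∞)
                (fun p : ℝ × ℝ => f ((p.1 : AddCircle (1 : ℝ)), (p.2 : AddCircle (1 : ℝ)))) ∧
              (∀ p : ℝ × ℝ, Function.Injective
                (fderiv ℝ
                  (fun q : ℝ × ℝ => f ((q.1 : AddCircle (1 : ℝ)), (q.2 : AddCircle (1 : ℝ)))) p)) ∧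
              (∀ ℓ : EuclideanSpace ℝ (Fin 3) →L[ℝ] ℝ, ℓ ≠ 0 → ∀ c : ℝ,
                IsPreconnected {x | c < ℓ (f x)}) ∧
              ∀ x, dist (f x) (g x) < ε := by
  intro F hF
  rw [Pool.Agent.Lib.MP_d88725_gt.faces_eq] at hF
  subst hF
  obtain ⟨g, g1, g2, g3, g4⟩ := Pool.Agent.Lib.MP_d88725_gt.main
  refine ⟨Pool.Agent.Lib.MP_d88725_gt.vv, ?_, ?_, g, g1, g2, ?_, fun ε hε => ?_⟩
  · rintro _ ⟨k, rfl⟩
    exact Pool.Agent.Lib.MP_d88725_gt.faces_indep k
  · rintro _ ⟨k, rfl⟩ _ ⟨l, rfl⟩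
    exact Pool.Agent.Lib.MP_d88725_gt.faces_inter k l
  · ext x
    rw [g3, Set.biUnion_range, Set.mem_iUnion]
    rfl
  · obtain ⟨f, f1, f2, f3, f4⟩ := g4 ε hε
    exact ⟨f, f1, f2, fun ℓ _ c => f3 ℓ c, f4⟩

end Pool.Agent.S14033
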