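import Pool.Statements.S14552
import Pool.Agent.Lib.MP_324817_lc.Main

set_option autoImplicit false
open Pool Pool.MP_324817_lc

namespace Pool.Agent.S14552

/-- The negation of the preceding statement: There is a lightface Delta-1-1 equivalence relation on Baire space with at least two classes such that, for every lightface Delta-1-1 equivalence relation F, one of the two reduces to the other via a function with Sigma-1-1 graph. -/
theorem result :
    ¬ (∀ Sig : ((ℕ → ℕ) → (ℕ → ℕ) → Prop) → Prop,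
    (∀ S, Sig S ↔ ∃ R : List ℕ × List ℕ × List ℕ → Bool, Computable R ∧
      ∀ x y : ℕ → ℕ, S x y ↔ ∃ w : ℕ → ℕ, ∀ n : ℕ,
        R (List.ofFn (fun i : Fin n => x i.val), List.ofFn (fun i : Fin n => y i.val),
           List.ofFn (fun i : Fin n => w i.val)) = true) →
    ∃ E : (ℕ → ℕ) → (ℕ → ℕ) → Prop,
      Equivalence E ∧ Sig E ∧ Sig (fun x y => ¬ E x y) ∧ (∃ x y, ¬ E x y) ∧
      ∀ F : (ℕ → ℕ) → (ℕ → ℕ) → Prop, Equivalence F → Sig F → Sig (fun x y => ¬ F x y) →
        (∃ f : (ℕ → ℕ) → (ℕ → ℕ), Sig (fun x z => f x = z) ∧ ∀ x y, E x y ↔ F (f x) (f y)) ∨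
        (∃ f : (ℕ → ℕ) → (ℕ → ℕ), Sig (fun x z => f x = z) ∧ ∀ x y, F x y ↔ E (f x) (f y))) := by
  intro h
  obtain ⟨E, hE, h1, h2, hxy, hall⟩ := h Pool.Agent.Lib.MP_324817_lc.FS (fun S => Iff.rfl)
  obtain ⟨F, hF, k1, k2, k3, k4⟩ := Pool.Agent.Lib.MP_324817_lc.main hE h1 h2 hxy
  rcases hall F hF k1 k2 with k | k
  · exact k3 k
  · exact k4 k

end Pool.Agent.S14552
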