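import Pool.Statements.S14704
import Pool.Agent.Lib.MP_5364dc_lc.Cons

set_option autoImplicit false
open Pool Pool.MP_5364dc_lc

namespace Pool.Agent.S14704

/-- The negation of the preceding statement: There is a finite alphabet and a 3-word code over it (unique factorization) that is contained in no finite code Y that is complete, i.e. where every word is a factor of some product of words of Y. -/
theorem result :
    ¬ (∃ k : ℕ, ∃ X : Finset (List (Fin k)), X.card = 3 ∧
      (∀ xs ys : List (List (Fin k)), (∀ x ∈ xs, x ∈ X) → (∀ y ∈ ys, y ∈ X) →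
        xs.flatten = ys.flatten → xs = ys) ∧
      ¬ ∃ Y : Finset (List (Fin k)), X ⊆ Y ∧
        (∀ xs ys : List (List (Fin k)), (∀ x ∈ xs, x ∈ Y) → (∀ y ∈ ys, y ∈ Y) →
          xs.flatten = ys.flatten → xs = ys) ∧
        (∀ w : List (Fin k), ∃ u v : List (Fin k), ∃ zs : List (List (Fin k)),
          (∀ z ∈ zs, z ∈ Y) ∧ zs.flatten = u ++ w ++ v)) := by
  rintro ⟨k, X, hcard, hcode, hn⟩
  obtain ⟨x, y, z, h1, h2, h3, rfl⟩ := Finset.card_eq_three.1 hcard
  have hc : Pool.Agent.Lib.MP_5364dc_lc.C3 x y z := by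
    refine ⟨fun xs ys hx hy e => hcode xs ys (fun v hv => ?_) (fun v hv => ?_) e, h1, h2, h3⟩
    · simpa using hx v hv
    · simpa using hy v hv
  obtain ⟨Y, f1, f2, f3, f4⟩ := Pool.Agent.Lib.MP_5364dc_lc.three_words x y z hc
  refine hn ⟨f1.toFinset, ?_, ?_, ?_⟩
  · intro v hv
    exact f1.mem_toFinset.2 (f2 (by simpa using hv))
  · intro xs ys hx hy e
    exact f3 xs ys (fun v hv => f1.mem_toFinset.1 (hx v hv))
      (fun v hv => f1.mem_toFinset.1 (hy v hv)) e
  · intro w
    obtain ⟨u, v, zs, hz, e⟩ := f4 w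
    exact ⟨u, v, zs, fun t ht => f1.mem_toFinset.2 (hz t ht), e⟩

end Pool.Agent.S14704
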