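import Pool.Statements.S14787
import Pool.Agent.Lib.MP_61ca19_lc.KeyGraph

set_option autoImplicit false
open Pool Pool.MP_61ca19_lc

namespace Pool.Agent.S14787

/-- For every n there is a finite triangle-free graph such that for any independent vertex set X and disjoint vertex set Y with ∣X∣+∣Y∣ ≤ n, some vertex outside both is adjacent to all of X and to none of Y. -/
theorem result :
    ∀ n : ℕ, ∃ N : ℕ, ∃ G : SimpleGraph (Fin N),
      G.CliqueFree 3 ∧
      ∀ X Y : Finset (Fin N),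
        G.IsIndepSet (X : Set (Fin N)) →
        Disjoint X Y →
        X.card + Y.card ≤ n →
        ∃ z : Fin N, z ∉ X ∧ z ∉ Y ∧
          (∀ x ∈ X, G.Adj z x) ∧ (∀ y ∈ Y, ¬ G.Adj z y) := by
  classical
  intro n
  obtain ⟨V, hV, G, h3, h⟩ := Pool.Agent.Lib.MP_61ca19_lc.KS.exists_graph n
  obtain ⟨N, ⟨e⟩⟩ := Finite.exists_equiv_fin V
  refine ⟨N, G.comap e.symm,
    h3.comap (SimpleGraph.Embedding.comap e.symm.toEmbedding G).isContained,
    fun X Y hX hXY hc => ?_⟩
  obtain ⟨z, h1, h2, h4, h5⟩ := h (X.map e.symm.toEmbedding) (Y.map e.symm.toEmbedding)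
    (fun a ha b hb hab => by
      obtain ⟨x, hx, rfl⟩ := Finset.mem_map.mp ha
      obtain ⟨y, hy, rfl⟩ := Finset.mem_map.mp hb
      exact hX hx hy fun e => hab (by rw [e]))
    ((Finset.disjoint_map _).mpr hXY) (by rwa [Finset.card_map, Finset.card_map])
  refine ⟨e z, fun hz => h1 (Finset.mem_map.mpr ⟨_, hz, by simp⟩),
    fun hz => h2 (Finset.mem_map.mpr ⟨_, hz, by simp⟩), fun x hx => ?_, fun y hy => ?_⟩
  · simpa using h4 _ (Finset.mem_map_of_mem _ hx)
  · simpa using h5 _ (Finset.mem_map_of_mem _ hy)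

end Pool.Agent.S14787
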