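import Pool.Statements.S16713
import Pool.Agent.Lib.MP_43444d_nt.Final

set_option autoImplicit false
open Pool Pool.MP_43444d_nt

namespace Pool.Agent.S16713

/-- Writing p_n for the n-th prime, the proportion of n ≤ N with 2p_n < p_{n-i} + p_{n+i} for every 1 ≤ i ≤ n-1 tends to 0 as N grows, i.e. this set of n has natural density 0. -/
theorem result :
    Filter.Tendsto
      (fun N : ℕ =>
        ((Set.ncard {n : ℕ | 1 ≤ n ∧ n ≤ N ∧
            ∀ i : ℕ, 1 ≤ i → i ≤ n - 1 →
              2 * Nat.nth Nat.Prime (n - 1) <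
                Nat.nth Nat.Prime (n - 1 - i) + Nat.nth Nat.Prime (n - 1 + i)} : ℕ) : ℝ)
          / (N : ℝ))
      Filter.atTop (nhds (0 : ℝ)) :=
  Pool.Agent.Lib.MP_43444d_nt.main

end Pool.Agent.S16713
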