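import Pool.Statements.S19619
import Pool.Agent.Lib.MP_c1e253_pr.Main

set_option autoImplicit false
open Pool Pool.MP_c1e253_pr

namespace Pool.Agent.S19619

/-- There are C>0, ε>0 such that for every δ>0, for all primes p, d≥3 and k≥C(d−1)log p with the unitriangular group H large enough, at least a 1−δ fraction of k-tuples of elements of H give h(Z)≥ε. -/
theorem result :
    ∃ C : ℝ, 0 < C ∧ ∃ ε : ℝ, 0 < ε ∧ ∀ δ : ℝ, 0 < δ → ∃ N : ℕ,
      ∀ (p : ℕ) [NeZero p], p.Prime → ∀ d : ℕ, 3 ≤ d → ∀ k : ℕ,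
        C * ((d : ℝ) - 1) * Real.log (p : ℝ) ≤ (k : ℝ) →
        N ≤ (Finset.univ.filter (fun M : Matrix (Fin d) (Fin d) (ZMod p) =>
              ∀ i j, (j < i → M i j = 0) ∧ M i i = 1)).card →
        (1 - δ) * ((Finset.univ.filter (fun M : Matrix (Fin d) (Fin d) (ZMod p) =>
              ∀ i j, (j < i → M i j = 0) ∧ M i i = 1)).card : ℝ) ^ k ≤
        (((Fintype.piFinset (fun _ : Fin k =>
              Finset.univ.filter (fun M : Matrix (Fin d) (Fin d) (ZMod p) =>
                ∀ i j, (j < i → M i j = 0) ∧ M i i = 1))).filter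
            (fun Z : Fin k → Matrix (Fin d) (Fin d) (ZMod p) =>
              ∀ S ∈ (Finset.univ.filter (fun M : Matrix (Fin d) (Fin d) (ZMod p) =>
                  ∀ i j, (j < i → M i j = 0) ∧ M i i = 1)).powerset,
                S.Nonempty →
                2 * S.card ≤ (Finset.univ.filter (fun M : Matrix (Fin d) (Fin d) (ZMod p) =>
                  ∀ i j, (j < i → M i j = 0) ∧ M i i = 1)).card →
                ε * (k : ℝ) * (S.card : ℝ) ≤
                  (((S ×ˢ (Finset.univ : Finset (Fin k))).filter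
                    (fun x => x.1 * Z x.2 ∉ S)).card : ℝ))).card : ℝ) := by
  refine ⟨1152, by norm_num, 1 / 600, by norm_num, fun δ hδ => ?_⟩
  obtain ⟨N, hN⟩ := exists_nat_gt (Real.exp (2 * (max 3 (Real.log (6 / δ))) ^ 2))
  refine ⟨N, fun p _ hp d hd k hk hcard => ?_⟩
  have hu := Pool.Agent.Lib.MP_c1e253_pr.large_of_card hp hN
    (le_trans (by norm_num) (le_max_left _ _)) _ hcard
  have hu3 : 3 ≤ d * Real.log p := (le_max_left _ _).trans hu
  have huδ : 6 * Real.exp (-(d * Real.log p)) ≤ δ := by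
    have h1 : Real.log (6 / δ) ≤ d * Real.log p := (le_max_right _ _).trans hu
    have h2 : 6 / δ ≤ Real.exp (d * Real.log p) := by
      rw [← Real.exp_log (show 0 < 6 / δ by positivity)]
      exact Real.exp_le_exp.mpr h1
    rw [Real.exp_neg, ← div_eq_mul_inv, div_le_iff₀ (Real.exp_pos _)]
    rw [div_le_iff₀ hδ] at h2
    linarith
  refine Pool.Agent.Lib.MP_c1e253_pr.main_count hp hd hk hu3 huδ _ (fun M => by simp) _ ?_
  intro Z hZ h
  rw [Finset.mem_filter, Fintype.mem_piFinset]
  exact ⟨hZ, fun S hS _ hS2 => h S (Finset.mem_powerset.mp hS) hS2⟩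

end Pool.Agent.S19619
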